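import Pool.Agent.Q28.ZO.RVal

/-!
# The action of the Galois group with complex coefficients
-/

open CategoryTheory AlgebraicGeometry TensorProduct Filter Topology

universe u w

namespace Pool.Agent.Q28.ZO

open Module
open Pool.Agent.H914 Pool.Agent.H914.VarClass Pool.Agent.H914.VarClass.Obj
  Pool.Agent.H914.WeilCohomology
open Pool.Agent.Y133.Half
open Pool.Agent.Y121 Pool.Agent.Y121.AH
open Pool.Agent.Q60.MT (Artin InSpan)
open Pool.Agent.Q55 (GaloisAction IsTate tatePred Virtually push_act SubAction)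

variable {k : Type u} [Field k] {𝒱 : VarClass k} {ops : CycleOps 𝒱}

variable {T : AH.HodgeTheory ops} {W' : WeilCohomology.{u, 0} ops} {X Y : 𝒱.Obj}
  (C : Artin T.W W') (τ : W'.K →+* ℂ) {Γ : Type w} [Group Γ]

/-- The basis of the complex cohomology. -/
lemma exists_cbasis {ι : Type} (e : Basis ι T.W.K (T.W.H X)) :
    ∃ b : Basis ι (CW T).K ((CW T).H X), ∀ i, b i = em T.W ℂ (e i) := by
  let b : Basis ι ℂ (ℂ ⊗[T.W.K] T.W.H X) := Algebra.TensorProduct.basis ℂ e
  exact ⟨(show Basis ι (CW T).K ((CW T).H X) from b), fun i =>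
    Algebra.TensorProduct.basis_apply (A := ℂ) e i⟩

/-- The extension of an endomorphism. -/
lemma exists_lin (φ : W'.H X →ₗ[W'.K] W'.H X) :
    ∃ Φ : (CW T).H X →ₗ[(CW T).K] (CW T).H X, ∀ a,
      Φ ((rlE C τ).E X a) = (rlE C τ).E X (φ a) := by
  classical
  let e := Module.finBasis T.W.K (T.W.H X)
  obtain ⟨e', he'⟩ := Pool.Agent.Q60.MT.exists_eX C T.rat e
  obtain ⟨b, hb⟩ := exists_cbasis e
  let Φ := b.constr (CW T).K fun i => (rlE C τ).E X (φ (e' i))
  refine ⟨Φ, fun a => ?_⟩
  have h1 : ∀ i, Φ ((rlE C τ).E X (e' i)) = (rlE C τ).E X (φ (e' i)) := by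
    intro i
    have h2 : (rlE C τ).E X (e' i) = b i := by rw [he', rlE_C, hb]
    rw [h2]
    exact b.constr_basis _ _ _
  rw [← e'.sum_repr a, map_sum, map_sum, map_sum, map_sum]
  refine Finset.sum_congr rfl fun i _ => ?_
  rw [(rlE C τ).semi, map_smul, h1, map_smul, (rlE C τ).semi]

/-- The extension of an automorphism. -/
lemma exists_aut (φ : W'.H X ≃ₐ[W'.K] W'.H X) :
    ∃ Φ : (CW T).H X ≃ₐ[(CW T).K] (CW T).H X, ∀ a,
      Φ ((rlE C τ).E X a) = (rlE C τ).E X (φ a) := by
  obtain ⟨Φ, hΦ⟩ := exists_lin C τ φ.toLinearMap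
  obtain ⟨Φ', hΦ'⟩ := exists_lin C τ φ.symm.toLinearMap
  set R := rlE C τ with hR
  have h1 : ∀ a, Φ (R.E X a) = R.E X (φ a) := hΦ
  have h2 : ∀ a, Φ' (R.E X a) = R.E X (φ.symm a) := hΦ'
  have h3 : ∀ x, Φ' (Φ x) = x := by
    intro x
    refine R.ind (p := fun x => Φ' (Φ x) = x) ?_ ?_ ?_ x
    · intro r a
      rw [map_smul, map_smul, h1, h2, AlgEquiv.symm_apply_apply]
    · rw [map_zero, map_zero]
    · intro a b ha hb; rw [map_add, map_add, ha, hb]
  have h4 : ∀ x, Φ (Φ' x) = x := by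
    intro x
    refine R.ind (p := fun x => Φ (Φ' x) = x) ?_ ?_ ?_ x
    · intro r a
      rw [map_smul, map_smul, h2, h1, AlgEquiv.apply_symm_apply]
    · rw [map_zero, map_zero]
    · intro a b ha hb; rw [map_add, map_add, ha, hb]
  have h5 : ∀ x y, Φ (x * y) = Φ x * Φ y := by
    intro x y
    refine R.ind (p := fun x => Φ (x * y) = Φ x * Φ y) ?_ ?_ ?_ x
    · intro r a
      refine R.ind (p := fun y => Φ (r • R.E X a * y) = Φ (r • R.E X a) * Φ y) ?_ ?_ ?_ y
      · intro r' a'
        rw [smul_mul_smul_comm, ← map_mul, map_smul, map_smul, map_smul, h1, h1, h1, map_mul φ,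
          map_mul (R.E X), smul_mul_smul_comm]
      · rw [mul_zero, map_zero, mul_zero]
      · intro a b ha hb; rw [mul_add, map_add, ha, hb, map_add, mul_add]
    · rw [zero_mul, map_zero, zero_mul]
    · intro a b ha hb; rw [add_mul, map_add, ha, hb, map_add, add_mul]
  have h6 : Φ 1 = 1 := by
    have h7 := h1 1
    rwa [map_one φ, map_one (R.E X)] at h7
  exact ⟨AlgEquiv.ofLinearEquiv (LinearEquiv.ofLinearMap Φ Φ' (LinearMap.ext h4)
    (LinearMap.ext h3)) h6 h5, h1⟩

/-- The extension of an automorphism. -/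
noncomputable def extAut (φ : W'.H X ≃ₐ[W'.K] W'.H X) : (CW T).H X ≃ₐ[(CW T).K] (CW T).H X :=
  (exists_aut C τ φ).choose

lemma extAut_E (φ : W'.H X ≃ₐ[W'.K] W'.H X) (a : W'.H X) :
    extAut C τ φ ((rlE C τ).E X a) = (rlE C τ).E X (φ a) :=
  (exists_aut C τ φ).choose_spec a

/-- Identities of linear maps are checked on the image of the realisation. -/
lemma rl_ext {W V : WeilCohomology.{u, 0} ops} (R : Rl W V) {M : Type*} [AddCommGroup M]
    [Module V.K M] {F F' : V.H X →ₗ[V.K] M} (h : ∀ a, F (R.E X a) = F' (R.E X a)) : F = F' := by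
  apply LinearMap.ext
  intro x
  refine R.ind (p := fun x => F x = F' x) ?_ ?_ ?_ x
  · intro r a; rw [map_smul, map_smul, h]
  · rw [map_zero, map_zero]
  · intro a b ha hb; rw [map_add, map_add, ha, hb]

/-- The realisation is injective. -/
lemma rlE_inj : Function.Injective ((rlE C τ).E X) := by
  classical
  rw [injective_iff_map_eq_zero]
  intro a ha
  let e := Module.finBasis T.W.K (T.W.H X)
  obtain ⟨e', he'⟩ := Pool.Agent.Q60.MT.exists_eX C T.rat e
  obtain ⟨b, hb⟩ := exists_cbasis e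
  have h1 : (rlE C τ).E X a = ∑ i, tau T τ (e'.repr a i) • b i := by
    conv_lhs => rw [← e'.sum_repr a, map_sum]
    exact Finset.sum_congr rfl fun i _ => by rw [(rlE C τ).semi, he', rlE_C, hb]; rfl
  rw [h1] at ha
  have h2 := Fintype.linearIndependent_iff.1 b.linearIndependent _ ha
  apply e'.repr.injective
  ext i
  rw [map_zero, Finsupp.zero_apply]
  exact (map_eq_zero (tau T τ)).1 (h2 i)

/-- The action of the Galois group on the complex cohomology. -/
noncomputable def cAct (hC : RespCl C) (G : GaloisAction W' Γ) : GaloisAction (CW T) Γ where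
  χ := (Units.map (tau T τ).toMonoidHom).comp G.χ
  ρ X :=
    { dom := (G.ρ X).dom
      act := fun g => extAut C τ ((G.ρ X).act g)
      act_mul := fun g hg h hh => by
        have h1 : (extAut C τ ((G.ρ X).act (g * h))).toLinearMap =
            (extAut C τ ((G.ρ X).act g)).toLinearMap ∘ₗ
              (extAut C τ ((G.ρ X).act h)).toLinearMap := by
          refine rl_ext (rlE C τ) fun a => ?_
          change extAut C τ ((G.ρ X).act (g * h)) _ = extAut C τ ((G.ρ X).act g)
            (extAut C τ ((G.ρ X).act h) _)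
          rw [extAut_E, extAut_E, extAut_E, (G.ρ X).act_mul g hg h hh]
          rfl
        ext x
        exact congrArg (fun F : (CW T).H X →ₗ[(CW T).K] (CW T).H X => F x) h1 }
  isGalois X :=
    { finiteIndex := (G.isGalois X).finiteIndex
      gr_mem := fun g hg i x hx => by
        have hx' : x ∈ (T.W.gr X i).baseChange ℂ := hx
        refine base_induction (P := fun x : ℂ ⊗[T.W.K] T.W.H X =>
          extAut C τ ((G.ρ X).act g) x ∈ (CW T).gr X i) ?_ ?_ ?_ hx'
        · exact (map_zero (extAut C τ ((G.ρ X).act g))).symm ▸ Submodule.zero_mem _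
        · intro x y hx hy
          exact (map_add (extAut C τ ((G.ρ X).act g)) x y).symm ▸ Submodule.add_mem _ hx hy
        · intro l a ha
          have h := tmul_eq (W := T.W) (L := ℂ) l a
          have h2 : extAut C τ ((G.ρ X).act g) (show (CW T).H X from (l ⊗ₜ[T.W.K] a)) ∈
              (CW T).gr X i := by
            rw [h, map_smul, ← rlE_C C τ, extAut_E]
            exact Submodule.smul_mem _ _ ((rlE C τ).gr
              ((G.isGalois X).gr_mem g hg i _ (Artin.gr (C := C) ha)))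
          exact h2
      tr_act := fun g hg x => by
        refine (rlE C τ).ind (p := fun x => (CW T).tr X (extAut C τ ((G.ρ X).act g) x) =
          (((Units.map (tau T τ).toMonoidHom).comp G.χ g : (CW T).Kˣ) : (CW T).K) ^ X.dim *
            (CW T).tr X x) ?_ ?_ ?_ x
        · intro r a
          have h1 : (((Units.map (tau T τ).toMonoidHom).comp G.χ g : (CW T).Kˣ) : (CW T).K) =
            tau T τ (G.χ g) := rfl
          have h2 : (rlE C τ).s = tau T τ := rfl
          rw [map_smul, extAut_E, map_smul, map_smul, (rlE C τ).tr, (rlE C τ).tr,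
            (G.isGalois X).tr_act g hg, h1, h2, map_mul, map_pow, smul_eq_mul, smul_eq_mul]
          ring
        · rw [map_zero, map_zero, mul_zero]
        · intro a b ha hb; rw [map_add, map_add, ha, hb, map_add, mul_add] }
  map_act {X Y} f := by
    obtain ⟨Δ, hΔ, h⟩ := G.map_act f
    refine ⟨Δ, hΔ, fun g hg hX hY y => ?_⟩
    refine (rlE C τ).ind (p := fun y => (CW T).map f (extAut C τ ((G.ρ Y).act g) y) =
      extAut C τ ((G.ρ X).act g) ((CW T).map f y)) ?_ ?_ ?_ y
    · intro r a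
      rw [map_smul, extAut_E, map_smul, map_smul, map_smul, ← (rlE C τ).nat, ← (rlE C τ).nat,
        extAut_E, h g hg hX hY]
    · simp only [map_zero]
    · intro a b ha hb
      rw [map_add, map_add, ha, hb, map_add, map_add]
  cl_act X j z hz := by
    obtain ⟨Δ, hΔ, h⟩ := G.cl_act X j z hz
    obtain ⟨r, -, hr⟩ := hC X j z hz
    refine ⟨Δ, hΔ, fun g hg hX => ?_⟩
    have h1 : (CW T).cl X z = (rlE C τ).E X (C.f X (T.W.cl X z)) := by
      rw [rlE_C, em_cl]
    change extAut C τ ((G.ρ X).act g) ((CW T).cl X z) = (tau T τ (G.χ g)) ^ j • (CW T).cl X z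
    rw [h1, extAut_E, hr, map_smul, h g hg hX, smul_comm, (rlE C τ).semi, map_pow]
    rfl

lemma cAct_E (hC : RespCl C) (G : GaloisAction W' Γ) (X : 𝒱.Obj) (g : Γ) (a : W'.H X) :
    ((cAct C τ hC G).ρ X).act g ((rlE C τ).E X a) = (rlE C τ).E X ((G.ρ X).act g a) :=
  extAut_E C τ _ a

/-- A rational class is a Tate class if it is one with complex coefficients. -/
lemma tate_of_cTate (hC : RespCl C) (G : GaloisAction W' Γ) {j : ℕ} {x : T.W.H X}
    (hx : x ∈ T.W.gr X (2 * j)) (h : IsTate (cAct C τ hC G) X j (em T.W ℂ x)) :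
    IsTate G X j (C.f X x) := by
  obtain ⟨-, Δ, hΔ, h⟩ := h
  refine ⟨Artin.gr (C := C) hx, Δ, hΔ, fun g hg hX => ?_⟩
  have h1 := h g hg hX
  have h2 : (((cAct C τ hC G).χ g : (CW T).Kˣ) : (CW T).K) = tau T τ (G.χ g) := rfl
  rw [← rlE_C C τ, cAct_E, h2] at h1
  apply rlE_inj C τ
  rw [h1, (rlE C τ).semi, ← map_pow]
  rfl

lemma cTate_of_tate (hC : RespCl C) (G : GaloisAction W' Γ) {j : ℕ} {x : T.W.H X}
    (h : IsTate G X j (C.f X x)) (hx : x ∈ T.W.gr X (2 * j)) :
    IsTate (cAct C τ hC G) X j (em T.W ℂ x) := by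
  obtain ⟨-, Δ, hΔ, h⟩ := h
  refine ⟨em_gr hx, Δ, hΔ, fun g hg hX => ?_⟩
  have h1 := h g hg hX
  have h2 : (((cAct C τ hC G).χ g : (CW T).Kˣ) : (CW T).K) = tau T τ (G.χ g) := rfl
  rw [← rlE_C C τ, cAct_E, h2, h1, (rlE C τ).semi, map_pow]
  rfl

end Pool.Agent.Q28.ZO
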