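import Pool.Agent.Q57.DR.Form2
import Pool.Agent.Q28.ZO.Val

/-!
# De Rham structures in terms of the cohomology theory with complex coefficients
-/

open CategoryTheory AlgebraicGeometry

open scoped TensorProduct

universe u

namespace Pool.Agent.Q28.ZO

open Module
open Pool.Agent.H914 Pool.Agent.H914.VarClass Pool.Agent.H914.VarClass.Obj
  Pool.Agent.H914.WeilCohomology
open Pool.Agent.Y133.Half Pool.Agent.Y133.Per Pool.Agent.Q57.DR
open Pool.Agent.Y121 Pool.Agent.Y121.AH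

variable {k : Type u} [Field k] {𝒱 : VarClass k} {ops : CycleOps 𝒱}
  {W : WeilCohomology.{u, 0} ops} [Algebra W.K ℂ] {F : Subfield ℂ} (D : GrDeRham W F)
  {X Y Z P : 𝒱.Obj}

/-- The number `2 π i` as a coefficient. -/
noncomputable def tp (W : WeilCohomology.{u, 0} ops) [Algebra W.K ℂ] : (baseW W ℂ).K := twoPiI

lemma tp_ne : tp W ≠ 0 := twoPiI_ne

/-- The element `r` as a coefficient. -/
def cc (W : WeilCohomology.{u, 0} ops) [Algebra W.K ℂ] (r : ℂ) : (baseW W ℂ).K := r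

/-- The de Rham cohomology. -/
def dr (D : GrDeRham W F) (Z : 𝒱.Obj) : Set ((baseW W ℂ).H Z) := D.dR Z

lemma dr_zero : (0 : (baseW W ℂ).H Z) ∈ dr D Z := (D.form Z).zero

lemma dr_add {a b : (baseW W ℂ).H Z} (ha : a ∈ dr D Z) (hb : b ∈ dr D Z) : a + b ∈ dr D Z :=
  (D.form Z).add a ha b hb

lemma dr_smul {r : ℂ} (hr : r ∈ F) {a : (baseW W ℂ).H Z} (ha : a ∈ dr D Z) :
    cc W r • a ∈ dr D Z :=
  (D.form Z).smul r hr a ha

lemma dr_mul {a b : (baseW W ℂ).H Z} (ha : a ∈ dr D Z) (hb : b ∈ dr D Z) : a * b ∈ dr D Z :=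
  (D.form Z).mul a ha b hb

lemma dr_map (f : X ⟶ Y) {a : (baseW W ℂ).H Y} (ha : a ∈ dr D Y) :
    (baseW W ℂ).map f a ∈ dr D X :=
  D.map f a ha

lemma dr_tr {a : (baseW W ℂ).H Z} (ha : a ∈ dr D Z) :
    ∃ r ∈ F, (baseW W ℂ).tr Z a = tp W ^ Z.dim * cc W r :=
  (D.form Z).tr a ha

lemma dr_mem {v : (baseW W ℂ).H Z}
    (h : ∀ w ∈ dr D Z, ∃ r ∈ F, (baseW W ℂ).tr Z (v * w) = tp W ^ Z.dim * cc W r) : v ∈ dr D Z :=
  mem_dR D.toDeRham h

lemma twist_eq (j : ℕ) (c : W.H Z) : (twist j c : Base W.K (W.H Z)) = tp W ^ j • em W ℂ c := by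
  have h : (twist j c : Base W.K (W.H Z)) = twoPiI ^ j • tm 1 c := tm_eq_smul _ _
  exact h

lemma isDRB_iff' {j : ℕ} {c : W.H Z} :
    IsDRB D.toDeRham Z j c ↔ c ∈ W.gr Z (2 * j) ∧ tp W ^ j • em W ℂ c ∈ dr D Z := by
  unfold IsDRB IsPeriod
  rw [twist_eq]
  exact Iff.rfl

lemma dr_push (f : X ⟶ Y) {a : (baseW W ℂ).H X} (ha : a ∈ dr D X) :
    (tp W ^ Y.dim * (tp W ^ X.dim)⁻¹) • (baseW W ℂ).push f a ∈ dr D Y := by
  refine dr_mem D fun w hw => ?_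
  obtain ⟨r, hr, h⟩ := dr_tr D (dr_mul D ha (dr_map D f hw))
  refine ⟨r, hr, ?_⟩
  rw [smul_mul_assoc, map_smul, (baseW W ℂ).tr_push, h, smul_eq_mul]
  have h0 : tp W ^ X.dim ≠ 0 := pow_ne_zero _ tp_ne
  field_simp

lemma dr_fin' (D : GrDeRham W F) (Z : 𝒱.Obj) : ∃ s : Finset (Base W.K (W.H Z)),
    (∀ w ∈ s, w ∈ D.dR Z) ∧ ∀ w ∈ D.dR Z, ∃ x : Base W.K (W.H Z) → F, w = ∑ y ∈ s, (x y : ℂ) • y := by
  classical
  obtain ⟨s, hs, hspan, hli⟩ := exists_linearIndependent ℂ (D.dR Z : Set (Base W.K (W.H Z)))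
  rw [(D.form Z).span] at hspan
  have hfin : Finite s := hli.finite
  have hfs : s.Finite := hfin
  refine ⟨hfs.toFinset, fun w hw => hs (hfs.mem_toFinset.1 hw), fun w hw => ?_⟩
  have h1 := mem_span_of_span D.toDeRham hs hspan (v := w)
    (fun v hv => (D.form Z).tr _ ((D.form Z).mul w hw v (hs hv)))
  have h2 : w ∈ Submodule.span F ((hfs.toFinset : Finset (Base W.K (W.H Z))) :
      Set (Base W.K (W.H Z))) := by
    rw [hfs.coe_toFinset]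
    exact h1
  obtain ⟨x, hx⟩ := Submodule.mem_span_finset.1 h2
  exact ⟨x, hx.2.symm⟩

/-- The de Rham cohomology is finitely generated over `F`. -/
lemma dr_fin (D : GrDeRham W F) (Z : 𝒱.Obj) : ∃ s : Finset ((baseW W ℂ).H Z), (∀ w ∈ s, w ∈ dr D Z) ∧
    ∀ w ∈ dr D Z, ∃ x : (baseW W ℂ).H Z → F, w = ∑ y ∈ s, cc W (x y) • y :=
  dr_fin' D Z

end Pool.Agent.Q28.ZO
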