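import Pool.Agent.Q28.ZO.DR

/-!
# The periods of classes as functionals
-/

open CategoryTheory AlgebraicGeometry

open scoped TensorProduct

universe u

namespace Pool.Agent.Q28.ZO

open Module
open Pool.Agent.H914 Pool.Agent.H914.VarClass Pool.Agent.H914.VarClass.Obj
  Pool.Agent.H914.WeilCohomology
open Pool.Agent.Y133.Half Pool.Agent.Y133.Per Pool.Agent.Q57.DR
open Pool.Agent.Y121 Pool.Agent.Y121.AH

variable {k : Type u} [Field k] {𝒱 : VarClass k} {ops : CycleOps 𝒱}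
  {W : WeilCohomology.{u, 0} ops} [Algebra W.K ℂ] {F : Subfield ℂ} (D : GrDeRham W F)
  {X Y Z P : 𝒱.Obj}

/-- The period of the class `u` of degree `2 j`. -/
noncomputable def pv (j : ℕ) (w : (baseW W ℂ).H Z) (x : W.H Z) : (baseW W ℂ).K :=
  (tp W ^ Z.dim)⁻¹ * (tp W ^ j * (baseW W ℂ).tr Z (em W ℂ x * w))

/-- The same number as a complex number. -/
noncomputable def pc (j : ℕ) (w : (baseW W ℂ).H Z) (x : W.H Z) : ℂ := pv j w x

lemma pv_add (j : ℕ) (w : (baseW W ℂ).H Z) (x y : W.H Z) :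
    pv j w (x + y) = pv j w x + pv j w y := by
  rw [pv, pv, pv, em_add, add_mul, map_add]
  ring

lemma pv_zero (j : ℕ) (w : (baseW W ℂ).H Z) : pv j w (0 : W.H Z) = 0 := by
  rw [pv, em_zero, zero_mul, map_zero, mul_zero, mul_zero]

lemma pv_smul (j : ℕ) (w : (baseW W ℂ).H Z) (r : W.K) (x : W.H Z) :
    pv j w (r • x) = cc W (algebraMap W.K ℂ r) * pv j w x := by
  have h : em W ℂ (r • x) = cc W (algebraMap W.K ℂ r) • em W ℂ x := em_smul r x
  rw [pv, pv, h, smul_mul_assoc, map_smul, smul_eq_mul]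
  ring

lemma pv_sum {ι : Type*} (s : Finset ι) (j : ℕ) (w : (baseW W ℂ).H Z) (f : ι → W.H Z) :
    pv j w (∑ i ∈ s, f i) = ∑ i ∈ s, pv j w (f i) := by
  classical
  induction s using Finset.induction_on with
  | empty => rw [Finset.sum_empty, Finset.sum_empty, pv_zero]
  | insert a s ha ih => rw [Finset.sum_insert ha, Finset.sum_insert ha, pv_add, ih]

lemma pv_sum_right {ι : Type*} (s : Finset ι) (j : ℕ) (r : ι → (baseW W ℂ).K)
    (w : ι → (baseW W ℂ).H Z) (x : W.H Z) :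
    pv j (∑ i ∈ s, r i • w i) x = ∑ i ∈ s, r i * pv j (w i) x := by
  rw [pv, Finset.mul_sum, map_sum, Finset.mul_sum, Finset.mul_sum]
  refine Finset.sum_congr rfl fun i _ => ?_
  rw [pv, mul_smul_comm, map_smul, smul_eq_mul]
  ring

lemma dim_pw (Z : 𝒱.Obj) : ∀ m, (pw Z m).dim = Z.dim * (m + 1)
  | 0 => by rw [zero_add, mul_one]; rfl
  | m + 1 => by
    have h : ((pw Z m).prod Z).dim = Z.dim * (m + 1) + Z.dim := by rw [dim_prod, dim_pw Z m]
    rw [show Z.dim * (m + 1 + 1) = Z.dim * (m + 1) + Z.dim by ring]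
    exact h

lemma dr_xpw {w : (baseW W ℂ).H Z} (hw : w ∈ dr D Z) :
    ∀ m, xpw (baseW W ℂ) w m ∈ dr D (pw Z m)
  | 0 => hw
  | m + 1 => by
    have h : xp (baseW W ℂ) (xpw (baseW W ℂ) w m) w ∈ dr D ((pw Z m).prod Z) :=
      dr_mul D (dr_map D _ (dr_xpw hw m)) (dr_map D _ hw)
    exact h

lemma pv_pow {j : ℕ} {w : (baseW W ℂ).H Z} (hw : w ∈ PH (baseW W ℂ) Z 0) {v : W.H Z}
    (hv : v ∈ W.gr Z (2 * j)) (m : ℕ) :
    pv (j * (m + 1)) (xpw (baseW W ℂ) w m) (xpw W v m) = pv j w v ^ (m + 1) := by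
  rw [pv, pv, em_xpw, tr_xpw (em_PH (PH.of' (by omega) hv)) hw m, dim_pw, mul_pow, mul_pow,
    inv_pow, ← pow_mul, ← pow_mul]

lemma pv_corr {i j l : ℕ} {c : W.H (P.prod Z)} (hc : c ∈ W.gr (P.prod Z) (2 * i))
    (hil : i + l = j + P.dim) (w : (baseW W ℂ).H Z) (t : W.H P) :
    pv j w (W.corr c t) = pv l ((tp W ^ i * (tp W ^ Z.dim)⁻¹) •
      (baseW W ℂ).corr (em W ℂ (W.map (swap Z P) c)) w) t := by
  have hc0 : em W ℂ c ∈ PH (baseW W ℂ) (P.prod Z) 0 := em_PH (PH.of' (by omega) hc)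
  rw [pv, pv, ← em_corr, tr_corr' hc0, em_map, mul_smul_comm, map_smul, smul_eq_mul]
  have h0 : tp W ^ P.dim ≠ 0 := pow_ne_zero _ tp_ne
  have h1 : tp W ^ Z.dim ≠ 0 := pow_ne_zero _ tp_ne
  have h2 : tp W ^ i * tp W ^ l = tp W ^ j * tp W ^ P.dim := by rw [← pow_add, hil, pow_add]
  generalize (baseW W ℂ).tr P (em W ℂ t * (baseW W ℂ).corr (em W ℂ (W.map (swap Z P) c)) w) = T
  field_simp
  linear_combination (-T) * h2

/-- The functionals given by the periods. -/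
noncomputable def perVals (S : ClassPred W)
    (hS : ∀ {X j c}, S.P X j c → IsDRB D.toDeRham X j c) : Vals W S F ℂ where
  Lam Z j := {f | ∃ w ∈ dr D Z, w ∈ PH (baseW W ℂ) Z 0 ∧ f = pv j w}
  add := by
    rintro Z j f ⟨w, -, -, rfl⟩ x y
    exact pv_add j w x y
  corr := by
    rintro P Z i j l c f hc ⟨w, hw, hw0, rfl⟩ hil
    refine ⟨_, ⟨(tp W ^ i * (tp W ^ Z.dim)⁻¹) •
      (baseW W ℂ).corr (em W ℂ (W.map (swap Z P) c)) w, ?_, ?_, rfl⟩,
      fun t _ => pv_corr (S.gr hc) hil w t⟩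
    · have h1 := ((isDRB_iff' D).1 (hS (S.map (swap Z P) hc))).2
      have h2 := dr_push D (snd Z P) (dr_mul D h1 (dr_map D (fst Z P) hw))
      rw [dim_prod, smul_mul_assoc, map_smul, smul_smul] at h2
      have h3 : tp W ^ P.dim * (tp W ^ (Z.dim + P.dim))⁻¹ * tp W ^ i =
          tp W ^ i * (tp W ^ Z.dim)⁻¹ := by
        have h0 : tp W ^ P.dim ≠ 0 := pow_ne_zero _ tp_ne
        have h1 : tp W ^ Z.dim ≠ 0 := pow_ne_zero _ tp_ne
        rw [pow_add]
        field_simp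
      rw [h3] at h2
      rw [corr_apply]
      exact h2
    · refine Submodule.smul_mem _ _ ?_
      have h1 : em W ℂ (W.map (swap Z P) c) ∈ PH (baseW W ℂ) (Z.prod P) 0 :=
        em_PH (PH.of' (by omega) (S.gr (S.map (swap Z P) hc)))
      exact Ev.corr h1 0 w hw0
  pow := by
    rintro Z j f ⟨w, hw, hw0, rfl⟩ m
    exact ⟨_, ⟨xpw (baseW W ℂ) w m, dr_xpw D hw m, xpw_even hw0 m, rfl⟩,
      fun v hv => pv_pow hw0 hv m⟩
  fin P := by
    classical
    obtain ⟨s, hs, hs'⟩ := dr_fin D P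
    let e := Module.finBasis W.K (W.H P)
    let B : Set ℂ := Set.range fun q : Fin (P.dim + 1) × s × Fin (finrank W.K (W.H P)) =>
      pc q.1 (q.2.1 : (baseW W ℂ).H P) (e q.2.2)
    refine ⟨Submodule.span F B, Module.Finite.span_of_finite F (Set.finite_range _), ?_⟩
    rintro l _ ⟨w, hw, -, rfl⟩ t ht
    by_cases hl : l ≤ P.dim
    · obtain ⟨x, hx⟩ := hs' w hw
      have h1 : pc l w t = ∑ i, ∑ y ∈ s, (algebraMap W.K ℂ (e.repr t i)) *
          ((x y : ℂ) * pc l y (e i)) := by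
        have h2 : pv l w t = ∑ i, cc W (algebraMap W.K ℂ (e.repr t i)) *
            ∑ y ∈ s, cc W (x y) * pv l y (e i) := by
          conv_lhs => rw [← e.sum_repr t]
          rw [pv_sum]
          refine Finset.sum_congr rfl fun i _ => ?_
          rw [pv_smul, hx, pv_sum_right]
        refine h2.trans ?_
        refine Finset.sum_congr rfl fun i _ => ?_
        exact Finset.mul_sum _ _ _
      refine Eq.subst (motive := fun z : ℂ => z ∈ Submodule.span F B) h1.symm ?_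
      refine Submodule.sum_mem _ fun i _ => Submodule.sum_mem _ fun y hy => ?_
      have h3 : (algebraMap W.K ℂ (e.repr t i)) * ((x y : ℂ) * pc l y (e i)) =
          (⟨algebraMap W.K ℂ (e.repr t i), (D.form P).scal _⟩ * x y : F) • pc l y (e i) := by
        rw [Subfield.smul_def, smul_eq_mul, Subfield.coe_mul, mul_assoc]
      rw [h3]
      exact Submodule.smul_mem _ _ (Submodule.subset_span ⟨⟨⟨l, by omega⟩, ⟨y, hy⟩, i⟩, rfl⟩)
    · rw [W.gr_eq_bot P _ (by omega)] at ht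
      rw [(Submodule.mem_bot _).1 ht, pv_zero]
      exact Submodule.zero_mem _

lemma degC_gr {i : ℕ} {x : (baseW W ℂ).H Z} (hx : x ∈ degC (W.gr Z) i) :
    x ∈ (baseW W ℂ).gr Z i := by
  have h1 : degC (W.gr Z) i ≤ ((baseW W ℂ).gr Z i : Submodule ℂ (Base W.K (W.H Z))) := by
    refine Submodule.span_le.2 ?_
    rintro _ ⟨c, hc, rfl⟩
    exact em_gr hc
  exact h1 hx

/-- A class is a de Rham-Betti class if its periods are in `F`. -/
theorem drb_of_periods {j : ℕ} {v : W.H Z} (hv : v ∈ W.gr Z (2 * j))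
    (h : ∀ w ∈ dr D Z, w ∈ PH (baseW W ℂ) Z 0 → (pv j w v : ℂ) ∈ F) :
    IsDRB D.toDeRham Z j v := by
  rw [isDRB_iff']
  refine ⟨hv, dr_mem D fun w hw => ?_⟩
  obtain ⟨f, hf, hw'⟩ := D.graded Z w hw
  have h0 : tp W ^ Z.dim ≠ 0 := pow_ne_zero _ tp_ne
  have h1 : ∀ i, ∃ r ∈ F, (baseW W ℂ).tr Z ((tp W ^ j • em W ℂ v) *
      (show (baseW W ℂ).H Z from f i)) = tp W ^ Z.dim * cc W r := by
    intro i
    have hi : (show (baseW W ℂ).H Z from f i) ∈ (baseW W ℂ).gr Z i := degC_gr (hf i).2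
    by_cases hij : 2 * j + i = 2 * Z.dim
    · refine ⟨pv j (show (baseW W ℂ).H Z from f i) v, h _ (hf i).1 (PH.of' (by omega) hi), ?_⟩
      change _ = tp W ^ Z.dim * pv j (show (baseW W ℂ).H Z from f i) v
      rw [pv, smul_mul_assoc, map_smul, smul_eq_mul, ← mul_assoc (tp W ^ Z.dim),
        mul_inv_cancel₀ h0, one_mul]
    · refine ⟨0, F.zero_mem, ?_⟩
      change _ = tp W ^ Z.dim * 0
      rw [mul_zero, smul_mul_assoc, map_smul, (baseW W ℂ).tr_eq_zero
        ((baseW W ℂ).mul_mem (em_gr hv) hi) hij, smul_zero]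
  choose r hr hr' using h1
  refine ⟨∑ i ∈ Finset.range (2 * Z.dim + 1), r i, F.sum_mem fun i _ => hr i, ?_⟩
  have h2 : w = ∑ i ∈ Finset.range (2 * Z.dim + 1), (show (baseW W ℂ).H Z from f i) := hw'
  have h3 : cc W (∑ i ∈ Finset.range (2 * Z.dim + 1), r i) =
      ∑ i ∈ Finset.range (2 * Z.dim + 1), cc W (r i) := rfl
  rw [h2, Finset.mul_sum, map_sum, h3, Finset.mul_sum]
  exact Finset.sum_congr rfl fun i _ => hr' i

/-- **Classes generated over de Rham-Betti classes are de Rham-Betti classes**, if the field `F` is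
algebraically closed. -/
theorem drb_of_genBy (hF : ∀ x : ℂ, IsAlgebraic F x → x ∈ F) {S Q : ClassPred W}
    (hS : ∀ {X j c}, S.P X j c → IsDRB D.toDeRham X j c) (h : GenBy S.sys Q.sys X P) {n j : ℕ}
    {v : W.H (pw X n)} (hv : Q.P (pw X n) j v) : IsDRB D.toDeRham (pw X n) j v := by
  refine drb_of_periods D (Q.gr hv) fun w hw hw0 => hF _ ?_
  exact (perVals D S hS).alg h hv ⟨w, hw, hw0, rfl⟩

end Pool.Agent.Q28.ZO
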