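import Pool.Agent.Q28.ZO.Tor
import Pool.Agent.Q28.ZO.PerVal
import Pool.Agent.Q57.DS.Fin2

/-!
# The zero-one laws for Hodge classes and de Rham-Betti classes
-/

open CategoryTheory AlgebraicGeometry Filter Topology

open scoped TensorProduct

universe u

namespace Pool.Agent.Q28.ZO

open Module
open Pool.Agent.H914 Pool.Agent.H914.VarClass Pool.Agent.H914.VarClass.Obj
  Pool.Agent.H914.WeilCohomology
open Pool.Agent.Y133.Half Pool.Agent.Y133.Per
open Pool.Agent.Y121 Pool.Agent.Y121.AH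
open Pool.Agent.Q57.DR (GrDeRham hd hd_nondeg hdPred hd_cl)

variable {k : Type u} [Field k] {𝒱 : VarClass k} {ops : CycleOps 𝒱}

/-- The dichotomy of `growth_or` in terms of the dimensions of the spaces of classes. -/
theorem gen_or {W : WeilCohomology.{u, 0} ops} (S Q : ClassPred W)
    (hSQ : ∀ {X j c}, S.P X j c → Q.P X j c) {X : 𝒱.Obj}
    (hnd : ∀ n, S.sys.Nondeg (pw X n)) (hl : ∃ l ∈ S.sys.C X, W.tr X l = 1) :
    (∃ P : 𝒱.Obj, GenBy S.sys Q.sys X P) ∨
      Tendsto (fun n => (dimBy W S.P (pw X n) : ℝ) / dimBy W Q.P (pw X n)) atTop (𝓝 0) := by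
  obtain ⟨l, hl, hl1⟩ := hl
  have hle : ∀ X, S.sys.C X ≤ Q.sys.C X := fun Z => ClassPred.sys_le (Q := S) (R := Q) hSQ Z
  rcases growth_or S.sys Q.sys hle X hl hl1 with ⟨m, P, -, hP⟩ | h
  · exact Or.inl ⟨P, hP⟩
  · right
    refine tendsto_zero_of_le fun N => ?_
    obtain ⟨n₀, hn₀⟩ := h N
    refine ⟨n₀, fun n hn => ?_⟩
    have h1 := hn₀ n hn
    have h0 : S.sys.Num (pw X n) = ⊥ := by
      rw [eq_bot_iff]
      intro x hx
      exact hnd n x hx.1 hx.2
    have h2 := S.sys.a_add_num (pw X n)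
    rw [h0, finrank_bot, add_zero] at h2
    rw [h2] at h1
    exact h1

section

variable (T : AHS.HodgeTheory ops) {F : Subfield ℂ} (D : GrDeRham T.W F) (X : 𝒱.Obj)
  [Nontrivial (T.W.H X)]

lemma hd_tr : ∃ l ∈ (hd T D).sys.C X, T.W.tr X l = 1 := by
  have hX : Nontrivial ((AHS.toH T).W.H X) := inferInstanceAs (Nontrivial (T.W.H X))
  exact Pool.Agent.Q60.HD.exists_tr_sys (T := AHS.toH T) (X := X) (hd T D).sys
    (fun Z z hz => hd_cl T D Z z hz)

/-- **The zero-one law for de Rham-Betti classes.** -/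
theorem drb_or : (∀ n j c, IsDRB D.toDeRham (pw X n) j c → AHS.IsHodge T (pw X n) j c) ∨
    Tendsto (fun n => (dimBy T.W (hd T D).P (pw X n) : ℝ) /
      dimBy T.W (IsDRB D.toDeRham) (pw X n)) atTop (𝓝 0) := by
  have hX : Nontrivial ((AHS.toH T).W.H X) := inferInstanceAs (Nontrivial (T.W.H X))
  exact hodge_or (T := AHS.toH T) (X := X) (hd T D) (drbPred D.toDeRham)
    (fun {_ _ _} h => h.2) (fun {_ _ _} h => h.1)
    (fun n => hd_nondeg (T := AHS.toH T) D (pw X n)) (hd_tr T D X)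

/-- **The zero-one law for Hodge classes.** -/
theorem hodge_drb_or (hF : ∀ x : ℂ, IsAlgebraic F x → x ∈ F) :
    (∀ n j c, AHS.IsHodge T (pw X n) j c → IsDRB D.toDeRham (pw X n) j c) ∨
    Tendsto (fun n => (dimBy T.W (hd T D).P (pw X n) : ℝ) /
      dimBy T.W (AHS.IsHodge T) (pw X n)) atTop (𝓝 0) := by
  have hX : Nontrivial ((AHS.toH T).W.H X) := inferInstanceAs (Nontrivial (T.W.H X))
  rcases gen_or (hd T D) (AH.hodgePred (AHS.toH T)) (fun {_ _ _} h => h.1) (X := X)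
    (fun n => hd_nondeg (T := AHS.toH T) D (pw X n)) (hd_tr T D X) with ⟨P, hP⟩ | h
  · left
    intro n j c hc
    exact drb_of_genBy D hF (S := hd T D) (Q := AH.hodgePred (AHS.toH T))
      (fun {_ _ _} h => h.2) hP hc
  · exact Or.inr h

lemma cyc_le (n : ℕ) : cycRank ops (pw X n) ≤ dimBy T.W (hd T D).P (pw X n) := by
  rw [← numDim_eq_cycRank T.W]
  have h1 := (algSys T.W).a_add_num (pw X n)
  have h2 : finrank T.W.K ((algSys T.W).C (pw X n)) ≤ finrank T.W.K ((hd T D).sys.C (pw X n)) :=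
    Submodule.finrank_mono (ClassPred.alg_le (Q := hd T D))
  exact (by omega : (algSys T.W).a (pw X n) ≤ finrank T.W.K ((hd T D).sys.C (pw X n)))

end

/-- The quotients of the two sequences tend to zero. -/
def ToZero (s t : ℕ → ℕ) : Prop := Tendsto (fun n => (s n : ℝ) / t n) atTop (𝓝 0)

lemma ToZero.of_le {r s t : ℕ → ℕ} (h : ∀ n, r n ≤ s n) (hs : ToZero s t) : ToZero r t := by
  refine squeeze_zero (fun n => by positivity) (fun n => ?_) hs
  exact div_le_div_of_nonneg_right (by exact_mod_cast h n) (Nat.cast_nonneg _)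

end Pool.Agent.Q28.ZO
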