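import Pool.Agent.Q28.ZO.RVal

/-!
# The zero-one law for Hodge classes which are Tate classes
-/

open CategoryTheory AlgebraicGeometry Filter Topology

universe u w

namespace Pool.Agent.Q28.ZO

open Module
open Pool.Agent.H914 Pool.Agent.H914.VarClass Pool.Agent.H914.VarClass.Obj
  Pool.Agent.H914.WeilCohomology
open Pool.Agent.Y133.Half
open Pool.Agent.Y121 Pool.Agent.Y121.AH
open Pool.Agent.Q60.MT (Artin)
open Pool.Agent.Q55 (GaloisAction IsTate)

variable {k : Type u} [Field k] {𝒱 : VarClass k} {ops : CycleOps 𝒱}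

variable {T : AH.HodgeTheory ops} {W' : WeilCohomology.{u, 0} ops} {C : Artin T.W W'}
  {Γ : Type w} [Group Γ]

/-- **The zero-one law for Hodge classes.** -/
theorem hodge_tate_or (hC : RespCl C) (G : GaloisAction W' Γ) (X : 𝒱.Obj)
    [Nontrivial (T.W.H X)] :
    (∀ n j c, AH.IsHodge T (pw X n) j c → IsTate G (pw X n) j (C.f (pw X n) c)) ∨
    Tendsto (fun n => (dimBy T.W (htPred hC G).P (pw X n) : ℝ) /
      dimBy T.W (AH.IsHodge T) (pw X n)) atTop (𝓝 0) := by
  rcases gen_or (htPred hC G) (hodgePred T) (fun {_ _ _} h => h.1) (X := X)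
    (fun n => ht_nondeg hC G (pw X n)) (ht_tr hC G X) with ⟨P, hP⟩ | h
  · exact Or.inl fun n j c hc => rTate_of_genBy (rlC C) G (S := htPred hC G) (Q := hodgePred T)
      (fun {_ _ _} h => h.2) hP hc
  · exact Or.inr h

end Pool.Agent.Q28.ZO
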