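import Pool.Agent.Q28.ZO.Sp
import Pool.Agent.Q55.Galois

/-!
# The zero-one law for Tate classes over rational Hodge classes
-/

open CategoryTheory AlgebraicGeometry TensorProduct Filter Topology

universe u w

namespace Pool.Agent.Q28.ZO

open Module
open Pool.Agent.H914 Pool.Agent.H914.VarClass Pool.Agent.H914.VarClass.Obj
  Pool.Agent.H914.WeilCohomology
open Pool.Agent.Y133.Half
open Pool.Agent.Y121 Pool.Agent.Y121.AH
open Pool.Agent.Q60.MT (Artin IsExtension InSpan)
open Pool.Agent.Q55 (GaloisAction IsTate tatePred Virtually)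

variable {k : Type u} [Field k] {𝒱 : VarClass k} {ops : CycleOps 𝒱}

variable {T : AH.HodgeTheory ops} {W' : WeilCohomology.{u, 0} ops} {X Y P : 𝒱.Obj}
  {C : Artin T.W W'}

section Tate

variable {Γ : Type w} [Group Γ] (G : GaloisAction W' Γ)

/-- The rational classes which are both Hodge classes and Tate classes. -/
noncomputable def htPred (hC : RespCl C) (G : GaloisAction W' Γ) : ClassPred T.W where
  P X j x := AH.IsHodge T X j x ∧ IsTate G X j (C.f X x)
  gr h := h.1.1
  zero {X j} := ⟨AH.IsHodge.zero, by rw [map_zero]; exact (tatePred G).zero⟩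
  add {X j a b} ha hb := ⟨ha.1.add hb.1, by rw [map_add]; exact (tatePred G).add ha.2 hb.2⟩
  smul {X j} r {a} ha := ⟨ha.1.smul r, by rw [C_smul]; exact (tatePred G).smul _ ha.2⟩
  cl {X j z} hz := ⟨AH.IsHodge.cl hz, by
    obtain ⟨r, -, hr⟩ := hC X j z hz
    rw [hr]; exact (tatePred G).smul _ ((tatePred G).cl hz)⟩
  mul {X i j a b} ha hb := ⟨ha.1.mul hb.1, by rw [map_mul]; exact (tatePred G).mul ha.2 hb.2⟩
  map {X Y} f {j a} h := ⟨h.1.map f, by rw [Artin.map]; exact (tatePred G).map f h.2⟩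
  push {X Y} f {j l} hl {a} h := ⟨h.1.push f hl, by
    have h1 : (rlC C).κ Y • W'.push f (C.f X a) = (rlC C).κ X • C.f Y (T.W.push f a) :=
      (rlC C).push f a
    have h2 : C.f Y (T.W.push f a) =
        (((rlC C).κ X)⁻¹ * (rlC C).κ Y) • W'.push f (C.f X a) := by
      rw [mul_smul, h1, smul_smul, inv_mul_cancel₀ ((rlC C).ne X), one_smul]
    rw [h2]
    exact (tatePred G).smul _ ((tatePred G).push f hl h.2)⟩

/-- Multiplications which are injective on the rational classes are injective. -/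
lemma mul_inj_C {w : T.W.H X} {i : ℕ} (h : ∀ y ∈ T.W.gr X i, w * y = 0 → y = 0) {y : W'.H X}
    (hy : y ∈ W'.gr X i) (h0 : C.f X w * y = 0) : y = 0 := by
  set m := Module.finBasis T.W.K (T.W.gr X i) with hm
  -- the elements of the basis
  have h1 : ∀ z : W'.H X, H914.proj (W'.isInternal X) i z ∈
      Submodule.span W'.K (Set.range fun l => C.f X ((m l : T.W.gr X i) : T.W.H X)) := by
    intro z
    refine C_ind C (p := fun z => H914.proj (W'.isInternal X) i z ∈
      Submodule.span W'.K (Set.range fun l => C.f X ((m l : T.W.gr X i) : T.W.H X))) ?_ ?_ ?_ z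
    · intro r x
      rw [map_smul, proj_C]
      refine Submodule.smul_mem _ _ ?_
      set x' : T.W.gr X i := ⟨H914.proj (T.W.isInternal X) i x, H914.proj_mem _ _ _⟩ with hx'
      have h2 : H914.proj (T.W.isInternal X) i x =
          ∑ l, m.repr x' l • ((m l : T.W.gr X i) : T.W.H X) := by
        have h3 := congrArg (fun y : T.W.gr X i => (y : T.W.H X)) (m.sum_repr x')
        exact h3.symm.trans (Submodule.coe_sum _ _ _)
      rw [h2, map_sum]
      refine Submodule.sum_mem _ fun l _ => ?_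
      rw [C_smul]
      exact Submodule.smul_mem _ _ (Submodule.subset_span ⟨l, rfl⟩)
    · rw [map_zero]; exact Submodule.zero_mem _
    · intro a b ha hb; rw [map_add]; exact Submodule.add_mem _ ha hb
  have h2 := h1 y
  rw [proj_same _ hy] at h2
  obtain ⟨a, ha⟩ := (Submodule.mem_span_range_iff_exists_fun _).1 h2
  -- the products
  have h3 : LinearIndependent T.W.K fun l => w * ((m l : T.W.gr X i) : T.W.H X) := by
    rw [Fintype.linearIndependent_iff]
    intro g hg l
    have h4 : w * ∑ l, g l • ((m l : T.W.gr X i) : T.W.H X) = 0 := by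
      rw [Finset.mul_sum, ← hg]
      exact Finset.sum_congr rfl fun l _ => by rw [mul_smul_comm]
    have h5 := h _ (Submodule.sum_mem _ fun l _ => Submodule.smul_mem _ _ (m l).2) h4
    have h6 : ∑ l, g l • m l = 0 := by
      apply Subtype.ext
      rw [Submodule.coe_sum]
      exact h5
    exact Fintype.linearIndependent_iff.1 m.linearIndependent g h6 l
  have h4 := (C.ext X).1 _ _ h3
  have h5 : ∑ l, a l • C.f X (w * ((m l : T.W.gr X i) : T.W.H X)) = 0 := by
    rw [← ha, Finset.mul_sum] at h0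
    rw [← h0]
    exact Finset.sum_congr rfl fun l _ => by rw [map_mul, mul_smul_comm]
  have h6 := Fintype.linearIndependent_iff.1 h4 a h5
  rw [← ha]
  exact Finset.sum_eq_zero fun l _ => by rw [h6 l, zero_smul]

lemma lifts_ht (hC : RespCl C) (G : GaloisAction W' Γ) : AH.Lifts T (htPred hC G) := by
  intro X z hz j hj v hv
  obtain ⟨x, hx, hxv⟩ := AH.lifts_hodge T X z hz j hj v hv.1
  refine ⟨x, ⟨hx, Artin.gr (C := C) hx.1, ?_⟩, hxv⟩
  set m := X.dim - 2 * j with hm
  have hn : X.dim - j = m + j := by omega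
  have hinj : ∀ y ∈ T.W.gr X (2 * j), T.W.cl X z ^ m * y = 0 → y = 0 := fun y hy h =>
    AH.hl_inj hz.2.1 hj hy h
  have hpow : IsTate G X (1 * m) (C.f X (T.W.cl X z ^ m)) := by
    have h1 := AH.q_pow (Q := htPred hC G) ((htPred hC G).cl hz.1) m
    exact h1.2
  obtain ⟨-, Δ, hΔ, h1⟩ := hpow
  obtain ⟨-, Δ', hΔ', h2⟩ := hv.2
  refine ⟨Δ ⊓ Δ', inferInstance, fun g hg hX => ?_⟩
  have h3 := h1 g hg.1 hX
  have h4 := h2 g hg.2 hX
  rw [← hxv, map_mul, map_mul, h3, one_mul, smul_mul_assoc, hn, pow_add, mul_smul] at h4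
  have h5 : (G.χ g : W'.K) ^ m ≠ 0 := pow_ne_zero _ (Units.ne_zero _)
  have h6 : C.f X (T.W.cl X z ^ m) * (G.ρ X).act g (C.f X x) =
      (G.χ g : W'.K) ^ j • (C.f X (T.W.cl X z ^ m) * C.f X x) :=
    smul_right_injective _ h5 h4
  rw [← sub_eq_zero]
  apply mul_inj_C (C := C) hinj
  · exact Submodule.sub_mem _ ((G.isGalois X).gr_mem g hX _ _ (Artin.gr (C := C) hx.1))
      (Submodule.smul_mem _ _ (Artin.gr (C := C) hx.1))
  · rw [mul_sub, h6, mul_smul_comm, sub_self]

lemma ht_nondeg (hC : RespCl C) (G : GaloisAction W' Γ) (X : 𝒱.Obj) :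
    (htPred hC G).sys.Nondeg X := by
  intro x hx h
  exact AH.q_nondeg_sys (Q := htPred hC G) (fun {X j x} h => h.1) (lifts_ht hC G) hx h

lemma ht_tr (hC : RespCl C) (G : GaloisAction W' Γ) (X : 𝒱.Obj) [Nontrivial (T.W.H X)] :
    ∃ l ∈ (htPred hC G).sys.C X, T.W.tr X l = 1 :=
  Pool.Agent.Q60.HD.exists_tr_sys (T := T) (X := X) (htPred hC G).sys
    (fun Z z hz => ClassPred.sp_of (Q := htPred hC G) ((htPred hC G).cl hz))

end Tate

end Pool.Agent.Q28.ZO
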