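import Pool.Agent.Q28.ZO.ValU
import Pool.Agent.Q28.ZO.Tate

/-!
# The values of Hodge classes at the elements of the Galois group
-/

open CategoryTheory AlgebraicGeometry Filter Topology

universe u w

namespace Pool.Agent.Q28.ZO

open Module
open Pool.Agent.H914 Pool.Agent.H914.VarClass Pool.Agent.H914.VarClass.Obj
  Pool.Agent.H914.WeilCohomology
open Pool.Agent.Y133.Half
open Pool.Agent.Y121 Pool.Agent.Y121.AH
open Pool.Agent.Q60.MT (Artin IsExtension InSpan)
open Pool.Agent.Q55 (GaloisAction IsTate tatePred Virtually push_act)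

section Germs

variable (Γ : Type w) [Group Γ] (K : Type) [Field K]

/-- The functions on the group which are zero on a subgroup of finite index. -/
def zeroIdeal : Ideal (Γ → K) where
  carrier := {f | Virtually fun g => f g = 0}
  zero_mem' := ⟨⊤, inferInstance, fun _ _ => rfl⟩
  add_mem' := by
    rintro a b ⟨Δ, hΔ, h⟩ ⟨Δ', hΔ', h'⟩
    exact ⟨Δ ⊓ Δ', inferInstance, fun g hg => by
      beta_reduce
      rw [Pi.add_apply, h g hg.1, h' g hg.2, add_zero]⟩
  smul_mem' := by
    rintro c a ⟨Δ, hΔ, h⟩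
    exact ⟨Δ, hΔ, fun g hg => by
      beta_reduce
      rw [Pi.smul_apply', h g hg, smul_zero]⟩

/-- The ring of germs of functions. -/
abbrev Germs : Type w := (Γ → K) ⧸ zeroIdeal Γ K

variable {Γ K}

/-- The germ of a function. -/
def germ (f : Γ → K) : Germs Γ K := Ideal.Quotient.mk _ f

lemma germ_eq {f f' : Γ → K} (h : Virtually fun g => f g = f' g) : germ f = germ f' := by
  rw [germ, germ, Ideal.Quotient.eq]
  obtain ⟨Δ, hΔ, h⟩ := h
  exact ⟨Δ, hΔ, fun g hg => by beta_reduce; rw [Pi.sub_apply, h g hg, sub_self]⟩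

lemma germ_add (f f' : Γ → K) : germ (fun g => f g + f' g) = germ f + germ f' :=
  map_add (Ideal.Quotient.mk (zeroIdeal Γ K)) f f'

lemma germ_pow (f : Γ → K) (n : ℕ) : germ (fun g => f g ^ n) = germ f ^ n :=
  map_pow (Ideal.Quotient.mk (zeroIdeal Γ K)) f n

lemma germ_smul (r : K) (f : Γ → K) : germ (fun g => r * f g) = r • germ f := rfl

lemma germ_sum {ι : Type*} (s : Finset ι) (f : ι → Γ → K) :
    germ (fun g => ∑ i ∈ s, f i g) = ∑ i ∈ s, germ (f i) := by
  have h : (fun g => ∑ i ∈ s, f i g) = ∑ i ∈ s, f i := by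
    funext g
    rw [Finset.sum_apply]
  rw [h]
  exact map_sum (Ideal.Quotient.mk (zeroIdeal Γ K)) f s

/-- A function with algebraic germ takes only finitely many values on a subgroup of finite
index. -/
lemma finite_of_alg {f : Γ → K} (h : IsAlgebraic K (germ f)) :
    ∃ s : Set K, s.Finite ∧ Virtually fun g => f g ∈ s := by
  obtain ⟨p, hp, hp0⟩ := h
  refine ⟨{x | p.IsRoot x}, Polynomial.finite_setOfPred_isRoot hp, ?_⟩
  have h1 : germ (Polynomial.aeval f p) = 0 := by
    rw [← hp0]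
    exact (Polynomial.aeval_algHom_apply (Ideal.Quotient.mkₐ K (zeroIdeal Γ K)) f p).symm
  rw [germ, Ideal.Quotient.eq_zero_iff_mem] at h1
  obtain ⟨Δ, hΔ, h2⟩ := h1
  refine ⟨Δ, hΔ, fun g hg => ?_⟩
  have h3 := h2 g hg
  beta_reduce at h3 ⊢
  have h4 : (Polynomial.aeval f p) g = Polynomial.eval (f g) p := by
    rw [← Polynomial.coe_aeval_eq_eval]
    exact (Polynomial.aeval_algHom_apply (Pi.evalAlgHom K (fun _ : Γ => K) g) f p).symm
  rw [h4] at h3
  exact h3

end Germs

end Pool.Agent.Q28.ZO
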