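import Pool.Agent.Q28.ZO.Rl
import Pool.Agent.Q60.MT.Cmp

/-!
# The realisations given by the comparison isomorphism with l-adic cohomology
-/

open CategoryTheory AlgebraicGeometry TensorProduct

universe u

namespace Pool.Agent.Q28.ZO

open Module
open Pool.Agent.H914 Pool.Agent.H914.VarClass Pool.Agent.H914.VarClass.Obj
  Pool.Agent.H914.WeilCohomology
open Pool.Agent.Y133.Half
open Pool.Agent.Y121 Pool.Agent.Y121.AH
open Pool.Agent.Q60.MT (Artin IsExtension)

variable {k : Type u} [Field k] {𝒱 : VarClass k} {ops : CycleOps 𝒱}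

variable {T : AH.HodgeTheory ops} {W' : WeilCohomology.{u, 0} ops} {X Y : 𝒱.Obj}

/-- The rational numbers as coefficients of a Hodge theory. -/
noncomputable def ratEquiv (T : AH.HodgeTheory ops) : ℚ ≃+* T.W.K :=
  RingEquiv.ofBijective (algebraMap ℚ T.W.K) ⟨(algebraMap ℚ T.W.K).injective, fun r => by
    obtain ⟨q, hq⟩ := T.rat r
    exact ⟨q, by rw [eq_ratCast]; exact hq⟩⟩

/-- The homomorphism of the coefficients. -/
noncomputable def sig (T : AH.HodgeTheory ops) (W' : WeilCohomology.{u, 0} ops) :
    T.W.K →+* W'.K := (algebraMap ℚ W'.K).comp (ratEquiv T).symm.toRingHom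

lemma hom_eq (T : AH.HodgeTheory ops) {L : Type*} [Field L] (f g : T.W.K →+* L) : f = g := by
  ext r
  obtain ⟨q, rfl⟩ := T.rat r
  rw [map_ratCast, map_ratCast]

variable (C : Artin T.W W')

lemma C_smul (r : T.W.K) (x : T.W.H X) : C.f X (r • x) = sig T W' r • C.f X x := by
  obtain ⟨q, rfl⟩ := T.rat r
  rw [Pool.Agent.Q60.MT.C_smul, map_ratCast]

lemma C_inj {x : T.W.H X} (h : C.f X x = 0) : x = 0 := by
  by_contra hx
  have h1 := (C.ext X).1 Unit (fun _ => x) (by
    rw [linearIndependent_unique_iff]
    exact hx)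
  exact h1.ne_zero () h

/-- Induction over linear combinations of images. -/
lemma C_ind {p : W'.H X → Prop} (h : ∀ (r : W'.K) (a : T.W.H X), p (r • C.f X a)) (h0 : p 0)
    (hadd : ∀ a b, p a → p b → p (a + b)) (x : W'.H X) : p x := by
  have hx : x ∈ Submodule.span W'.K (Set.range (C.f X)) := by
    rw [(C.ext X).2]; trivial
  have key : ∀ r : W'.K, p (r • x) := by
    induction hx using Submodule.span_induction with
    | mem x hx => obtain ⟨a, rfl⟩ := hx; exact fun r => h r a
    | zero => intro r; rw [smul_zero]; exact h0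
    | add x y _ _ hx hy => intro r; rw [smul_add]; exact hadd _ _ (hx r) (hy r)
    | smul c x _ hx => intro r; rw [smul_smul]; exact hx _
  have := key 1
  rwa [one_smul] at this

lemma proj_C (j : ℕ) (x : T.W.H Y) : H914.proj (W'.isInternal Y) j (C.f Y x) =
    C.f Y (H914.proj (T.W.isInternal Y) j x) := by
  refine gr_induction (T.W.isInternal Y) (p := fun x => H914.proj (W'.isInternal Y) j (C.f Y x) =
    C.f Y (H914.proj (T.W.isInternal Y) j x)) ?_ ?_ x
  · intro i x hx
    by_cases h : i = j
    · subst h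
      rw [proj_same _ hx, proj_same _ (Artin.gr (C := C) hx)]
    · rw [proj_ne _ hx h, proj_ne _ (Artin.gr (C := C) hx) h, map_zero]
  · intro x y hx hy
    rw [map_add, map_add, hx, hy, map_add, map_add]

lemma exists_kap (X : 𝒱.Obj) : ∃ c : W'.K, c ≠ 0 ∧
    ∀ a : T.W.H X, W'.tr X (C.f X a) = c * sig T W' (T.W.tr X a) := by
  rcases subsingleton_or_nontrivial (T.W.H X) with hs | hn
  · refine ⟨1, one_ne_zero, fun a => ?_⟩
    rw [Subsingleton.elim a 0, map_zero, map_zero, map_zero, map_zero, mul_zero]
  · obtain ⟨l, hl, hl1⟩ := exists_tr_hodge T X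
    refine ⟨W'.tr X (C.f X l), fun h0 => ?_, fun a => ?_⟩
    · have h1 : C.f X l = 0 := by
        apply W'.nondeg
        intro b
        refine gr_induction (W'.isInternal X) (p := fun b => W'.tr X (C.f X l * b) = 0) ?_ ?_ b
        · intro i b hb
          rcases Nat.eq_zero_or_pos i with rfl | hi
          · rw [W'.gr_zero] at hb
            obtain ⟨r, rfl⟩ := Submodule.mem_span_singleton.1 hb
            rw [mul_smul_comm, mul_one, map_smul, h0, smul_zero]
          · have h1 := W'.mul_mem (Artin.gr (C := C) hl.1) hb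
            rw [W'.gr_eq_bot X _ (by omega)] at h1
            rw [(Submodule.mem_bot _).1 h1, map_zero]
        · intro a b ha hb; rw [mul_add, map_add, ha, hb, add_zero]
      have h2 := C_inj C h1
      rw [h2, map_zero] at hl1
      exact zero_ne_one hl1
    · refine gr_induction (T.W.isInternal X)
        (p := fun a => W'.tr X (C.f X a) = W'.tr X (C.f X l) * sig T W' (T.W.tr X a)) ?_ ?_ a
      · intro i a ha
        by_cases hi : i = 2 * X.dim
        · subst hi
          have h3 := top_eq hl.1 hl1 ha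
          conv_lhs => rw [h3, C_smul, map_smul, smul_eq_mul]
          rw [mul_comm]
        · rw [W'.tr_eq_zero (Artin.gr (C := C) ha) hi, T.W.tr_eq_zero ha hi, map_zero, mul_zero]
      · intro a b ha hb; rw [map_add, map_add, map_add, map_add, ha, hb, mul_add]

/-- The comparison map as a realisation. -/
noncomputable def rlC : Rl T.W W' where
  s := sig T W'
  κ X := (exists_kap C X).choose
  ne X := (exists_kap C X).choose_spec.1
  E := C.f
  semi _ r a := C_smul C r a
  gr ha := Artin.gr (C := C) ha
  nat f b := Artin.map C f b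
  span X := (C.ext X).2
  tr X a := (exists_kap C X).choose_spec.2 a

section Emb

variable (τ : W'.K →+* ℂ)

/-- The embedding of the coefficients. -/
def tau (T : AH.HodgeTheory ops) (τ : W'.K →+* ℂ) : W'.K →+* (CW T).K := τ

lemma tau_sig (r : T.W.K) : tau T τ (sig T W' r) = ex T.W ℂ r := by
  have h := hom_eq T (τ.comp (sig T W')) (algebraMap T.W.K ℂ)
  exact congrArg (fun f : T.W.K →+* ℂ => f r) h

lemma exists_ext (X : 𝒱.Obj) : ∃ E : W'.H X →+* (CW T).H X,
    (∀ (r : W'.K) (a : W'.H X), E (r • a) = tau T τ r • E a) ∧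
      ∀ x : T.W.H X, E (C.f X x) = em T.W ℂ x := by
  classical
  let e := Module.finBasis T.W.K (T.W.H X)
  obtain ⟨e', he'⟩ := Pool.Agent.Q60.MT.exists_eX C T.rat e
  have hrep : ∀ x i, e'.repr (C.f X x) i = sig T W' (e.repr x i) := by
    intro x i
    have h1 : C.f X x = ∑ i, sig T W' (e.repr x i) • e' i := by
      conv_lhs => rw [← e.sum_repr x, map_sum]
      exact Finset.sum_congr rfl fun i _ => by rw [C_smul, he']
    rw [h1, e'.repr_sum_self]
  let E₀ : W'.H X → (CW T).H X := fun a => ∑ i, tau T τ (e'.repr a i) • em T.W ℂ (e i)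
  have hadd : ∀ a b, E₀ (a + b) = E₀ a + E₀ b := by
    intro a b
    simp only [E₀]
    rw [← Finset.sum_add_distrib]
    exact Finset.sum_congr rfl fun i _ => by
      rw [map_add, Finsupp.add_apply, map_add, add_smul]
  have hsmul : ∀ (r : W'.K) a, E₀ (r • a) = tau T τ r • E₀ a := by
    intro r a
    simp only [E₀]
    rw [Finset.smul_sum]
    exact Finset.sum_congr rfl fun i _ => by
      rw [map_smul, Finsupp.smul_apply, smul_eq_mul, map_mul, mul_smul]
  have hC : ∀ x, E₀ (C.f X x) = em T.W ℂ x := by
    intro x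
    have h2 : em T.W ℂ x = ∑ i, em T.W ℂ (e.repr x i • e i) := by
      conv_lhs => rw [← e.sum_repr x]
      exact map_sum (⟨⟨em T.W ℂ, em_zero⟩, em_add⟩ : T.W.H X →+ (CW T).H X) _ _
    rw [h2]
    simp only [E₀]
    refine Finset.sum_congr rfl fun i _ => ?_
    rw [hrep, tau_sig, em_smul]
  have h0 : E₀ 0 = 0 := by
    have := hadd 0 0
    rw [add_zero] at this
    exact left_eq_add.1 this
  have hmul : ∀ a b, E₀ (a * b) = E₀ a * E₀ b := by
    intro a b
    refine C_ind C (p := fun a => E₀ (a * b) = E₀ a * E₀ b) ?_ ?_ ?_ a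
    · intro r x
      refine C_ind C (p := fun b => E₀ (r • C.f X x * b) = E₀ (r • C.f X x) * E₀ b) ?_ ?_ ?_ b
      · intro s y
        rw [smul_mul_smul_comm, ← map_mul, hsmul, hsmul, hsmul, hC, hC, hC, em_mul,
          smul_mul_smul_comm, map_mul]
      · rw [mul_zero, h0, mul_zero]
      · intro u v hu hv; rw [mul_add, hadd, hu, hv, hadd, mul_add]
    · rw [zero_mul, h0, zero_mul]
    · intro u v hu hv; rw [add_mul, hadd, hu, hv, hadd, add_mul]
  refine ⟨{ toFun := E₀, map_one' := ?_, map_mul' := hmul, map_zero' := h0, map_add' := hadd },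
    hsmul, hC⟩
  rw [← map_one (C.f X), hC]
  rfl

/-- The realisation of `l`-adic cohomology in complex cohomology. -/
noncomputable def rlE : Rl W' (CW T) where
  s := tau T τ
  κ X := (tau T τ ((rlC C).κ X))⁻¹
  ne X := inv_ne_zero ((map_ne_zero (tau T τ)).2 ((rlC C).ne X))
  E X := (exists_ext C τ X).choose
  semi X r a := (exists_ext C τ X).choose_spec.1 r a
  gr {X i a} ha := by
    have h1 := (exists_ext C τ X).choose_spec
    set E := (exists_ext C τ X).choose
    have h2 : ∀ a, E (H914.proj (W'.isInternal X) i a) ∈ (CW T).gr X i := by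
      intro a
      refine C_ind C (p := fun a => E (H914.proj (W'.isInternal X) i a) ∈ (CW T).gr X i) ?_ ?_ ?_ a
      · intro r x
        rw [map_smul, h1.1, proj_C, h1.2]
        exact Submodule.smul_mem _ _ (em_gr (H914.proj_mem _ _ _))
      · rw [map_zero, map_zero]; exact Submodule.zero_mem _
      · intro a b ha hb; rw [map_add, map_add]; exact Submodule.add_mem _ ha hb
    have h3 := h2 a
    rwa [proj_same _ ha] at h3
  nat {X Y} f b := by
    have h1 := (exists_ext C τ X).choose_spec
    have h2 := (exists_ext C τ Y).choose_spec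
    set E := (exists_ext C τ X).choose
    set E' := (exists_ext C τ Y).choose
    refine C_ind C (p := fun b => E (W'.map f b) = (CW T).map f (E' b)) ?_ ?_ ?_ b
    · intro r x
      rw [map_smul, h1.1, ← Artin.map, h1.2, h2.1, h2.2, map_smul, em_map]
    · simp only [map_zero]
    · intro a b ha hb; rw [map_add, map_add, ha, hb, map_add, map_add]
  span X := by
    have h1 := (exists_ext C τ X).choose_spec
    set E := (exists_ext C τ X).choose
    rw [eq_top_iff]
    intro x _
    refine tmul_ind (p := fun x => x ∈ Submodule.span (CW T).K (Set.range E)) ?_ ?_ ?_ x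
    · exact Submodule.zero_mem _
    · intro x y hx hy; exact Submodule.add_mem _ hx hy
    · intro l a
      rw [tmul_eq]
      exact Submodule.smul_mem _ _ (Submodule.subset_span ⟨C.f X a, h1.2 a⟩)
  tr X a := by
    have h1 := (exists_ext C τ X).choose_spec
    set E := (exists_ext C τ X).choose
    refine C_ind C (p := fun a => (CW T).tr X (E a) =
      (tau T τ ((rlC C).κ X))⁻¹ * tau T τ (W'.tr X a)) ?_ ?_ ?_ a
    · intro r x
      have h2 : W'.tr X (C.f X x) = (rlC C).κ X * sig T W' (T.W.tr X x) := (rlC C).tr X x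
      have h3 : tau T τ ((rlC C).κ X) ≠ 0 := (map_ne_zero (tau T τ)).2 ((rlC C).ne X)
      rw [h1.1, h1.2, map_smul, map_smul, em_tr, h2, smul_eq_mul, smul_eq_mul, map_mul, map_mul,
        tau_sig]
      field_simp
    · simp only [map_zero, mul_zero]
    · intro a b ha hb; rw [map_add, map_add, ha, hb, map_add, map_add, mul_add]

lemma rlE_C (x : T.W.H X) : (rlE C τ).E X (C.f X x) = em T.W ℂ x :=
  (exists_ext C τ X).choose_spec.2 x

end Emb

end Pool.Agent.Q28.ZO
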