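import Pool.Agent.Q28.ZO.Fin

/-!
# The zero-one laws in terms of de Rham structures on Hodge theories
-/

open CategoryTheory AlgebraicGeometry Filter Topology

open scoped TensorProduct

universe u

namespace Pool.Agent.Q28.ZO

open Module
open Pool.Agent.H914 Pool.Agent.H914.VarClass Pool.Agent.H914.VarClass.Obj
  Pool.Agent.H914.WeilCohomology
open Pool.Agent.Y121.AHS (HodgeTheory IsHodge RatioToZero)
open Pool.Agent.Y133.Half (pw)
open Pool.Agent.Q57.DS

variable {k : Type u} [Field k] {𝒱 : VarClass k} {ops : CycleOps 𝒱}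

variable (T : HodgeTheory ops) {F : Subfield ℂ} (D : DRStr T F) (X : 𝒱.Obj)
  [Nontrivial (T.W.H X)]

theorem p_drb_or : (∀ n, DRBAreHodge D (pw X n)) ∨
    RatioToZero (fun n => dimP (IsHD D) (pw X n)) fun n => dimP (IsDRB D) (pw X n) := by
  unfold DRBAreHodge
  rw [hd_eq, drb_fun]
  exact drb_or T (toGr D) X

theorem p_hodge_or (hF : ∀ x : ℂ, IsAlgebraic F x → x ∈ F) :
    (∀ n, HodgeAreDRB D (pw X n)) ∨
      RatioToZero (fun n => dimP (IsHD D) (pw X n)) fun n => dimP (IsHodge T) (pw X n) := by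
  unfold HodgeAreDRB
  rw [hd_eq, drb_fun]
  exact hodge_drb_or T (toGr D) X hF

theorem p_of_le {t : ℕ → ℕ} (h : RatioToZero (fun n => dimP (IsHD D) (pw X n)) t) :
    RatioToZero (fun n => cycRk ops (pw X n)) t := by
  refine ToZero.of_le (fun n => ?_) h
  rw [hd_eq]
  exact cyc_le T (toGr D) X n

end Pool.Agent.Q28.ZO
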