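import Pool.Agent.Q28.ZO.Germ

/-!
# The matrix coefficients of the Galois group on realised classes
-/

open CategoryTheory AlgebraicGeometry Filter Topology

universe u w

namespace Pool.Agent.Q28.ZO

open Module
open Pool.Agent.H914 Pool.Agent.H914.VarClass Pool.Agent.H914.VarClass.Obj
  Pool.Agent.H914.WeilCohomology
open Pool.Agent.Y133.Half
open Pool.Agent.Y121 Pool.Agent.Y121.AH
open Pool.Agent.Q55 (GaloisAction IsTate tatePred Virtually push_act)

variable {k : Type u} [Field k] {𝒱 : VarClass k} {ops : CycleOps 𝒱}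

variable {W V : WeilCohomology.{u, 0} ops} {X Y Z P : 𝒱.Obj} {Γ : Type w} [Group Γ]

/-- Correspondences given by Tate classes respect the action. -/
lemma corr_act (G : GaloisAction V Γ) {i : ℕ} {c : V.H (P.prod Z)} (hc : IsTate G (P.prod Z) i c) :
    ∃ Δ : Subgroup Γ, Δ.FiniteIndex ∧ ∀ g ∈ Δ, ∀ x : V.H P,
      (G.χ g : V.K) ^ P.dim • (G.ρ Z).act g (V.corr c x) =
        (G.χ g : V.K) ^ i • V.corr c ((G.ρ P).act g x) := by
  obtain ⟨-, Δ, hΔ, h1⟩ := hc
  obtain ⟨Δ₂, hΔ₂, h2⟩ := push_act G (snd P Z)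
  obtain ⟨Δ₃, hΔ₃, h3⟩ := G.map_act (fst P Z)
  have i1 := (G.isGalois P).finiteIndex
  have i2 := (G.isGalois Z).finiteIndex
  have i3 := (G.isGalois (P.prod Z)).finiteIndex
  refine ⟨Δ ⊓ Δ₂ ⊓ Δ₃ ⊓ (G.ρ P).dom ⊓ (G.ρ Z).dom ⊓ (G.ρ (P.prod Z)).dom, inferInstance,
    fun g hg x => ?_⟩
  obtain ⟨⟨⟨⟨⟨hg1, hg2⟩, hg3⟩, hgP⟩, hgZ⟩, hgPZ⟩ := hg
  have h4 := h2 g hg2 hgPZ hgZ (c * V.map (fst P Z) x)
  rw [map_mul ((G.ρ (P.prod Z)).act g), h1 g hg1 hgPZ, ← h3 g hg3 hgPZ hgP, smul_mul_assoc,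
    map_smul, dim_prod] at h4
  have h5 : (G.χ g : V.K) ^ Z.dim ≠ 0 := pow_ne_zero _ (Units.ne_zero _)
  rw [Nat.add_comm, pow_add, mul_smul] at h4
  rw [corr_apply, corr_apply]
  exact smul_right_injective _ h5 h4

/-- The action on external powers. -/
lemma xpw_act (G : GaloisAction V Γ) (Z : 𝒱.Obj) : ∀ m : ℕ,
    ∃ Δ : Subgroup Γ, Δ.FiniteIndex ∧ ∀ g ∈ Δ, ∀ y : V.H Z,
      (G.ρ (pw Z m)).act g (xpw V y m) = xpw V ((G.ρ Z).act g y) m
  | 0 => ⟨⊤, inferInstance, fun _ _ _ => rfl⟩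
  | m + 1 => by
    obtain ⟨Δ, hΔ, h1⟩ := xpw_act G Z m
    obtain ⟨Δ₂, hΔ₂, h2⟩ := G.map_act (fst (pw Z m) Z)
    obtain ⟨Δ₃, hΔ₃, h3⟩ := G.map_act (snd (pw Z m) Z)
    have i1 := (G.isGalois Z).finiteIndex
    have i2 := (G.isGalois (pw Z m)).finiteIndex
    have i3 := (G.isGalois ((pw Z m).prod Z)).finiteIndex
    refine ⟨Δ ⊓ Δ₂ ⊓ Δ₃ ⊓ (G.ρ Z).dom ⊓ (G.ρ (pw Z m)).dom ⊓ (G.ρ ((pw Z m).prod Z)).dom,
      inferInstance, fun g hg y => ?_⟩
    obtain ⟨⟨⟨⟨⟨hg1, hg2⟩, hg3⟩, hgP⟩, hgZ⟩, hgPZ⟩ := hg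
    have h4 : (G.ρ ((pw Z m).prod Z)).act g (xp V (xpw V y m) y) =
        xp V (xpw V ((G.ρ Z).act g y) m) ((G.ρ Z).act g y) := by
      rw [xp, map_mul, ← h2 g hg2 hgPZ hgZ, ← h3 g hg3 hgPZ hgP, h1 g hg1, xp]
    exact h4

/-- The function on the group given by two classes. -/
noncomputable def coef (G : GaloisAction V Γ) (Z : 𝒱.Obj) (j : ℕ) (w y : V.H Z) (g : Γ) : V.K :=
  ((G.χ g : V.K)⁻¹) ^ j * V.tr Z ((G.ρ Z).act g y * w)

lemma coef_add (G : GaloisAction V Γ) (j : ℕ) (w x y : V.H Z) :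
    germ (coef G Z j w (x + y)) = germ (coef G Z j w x) + germ (coef G Z j w y) := by
  rw [← germ_add]
  congr 1
  funext g
  simp only [coef]
  rw [map_add, add_mul, map_add, mul_add]

lemma coef_corr (G : GaloisAction V Γ) {i j l : ℕ} {c : V.H (P.prod Z)}
    (hc : IsTate G (P.prod Z) i c) {w : V.H Z} (hw : w ∈ PH V Z 0) (a : V.K)
    (hl : i + l = j + P.dim) : ∃ w' ∈ PH V P 0, ∀ t : V.H P,
      germ (coef G Z j w (a • V.corr c t)) = germ (coef G P l w' t) := by
  obtain ⟨Δ, hΔ, h1⟩ := corr_act G hc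
  have hcE : c ∈ PH V (P.prod Z) 0 := PH.of' (by omega) hc.1
  have hcw : V.corr (V.map (swap Z P) c) w ∈ PH V P 0 := by
    have h := PH.push (snd Z P) (PH.mul (PH.map (swap Z P) hcE) (PH.map (fst Z P) hw))
    rw [corr_apply]
    exact h
  refine ⟨a • V.corr (V.map (swap Z P) c) w, (PH V P 0).smul_mem a hcw, fun t => ?_⟩
  refine germ_eq ⟨Δ, hΔ, fun g hg => ?_⟩
  simp only [coef]
  have h3 := h1 g hg t
  have h4 : (G.χ g : V.K) ≠ 0 := Units.ne_zero _
  have h5 : (G.ρ Z).act g (V.corr c t) =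
      (((G.χ g : V.K)⁻¹) ^ P.dim * (G.χ g : V.K) ^ i) • V.corr c ((G.ρ P).act g t) := by
    rw [mul_smul, ← h3, smul_smul, ← mul_pow, inv_mul_cancel₀ h4, one_pow, one_smul]
  rw [map_smul, h5, smul_mul_assoc, smul_mul_assoc, map_smul, map_smul,
    tr_corr' hcE, mul_smul_comm a ((G.ρ P).act g t), map_smul, smul_eq_mul, smul_eq_mul,
    smul_eq_mul]
  have h6 : ((G.χ g : V.K)⁻¹) ^ j * (((G.χ g : V.K)⁻¹) ^ P.dim * (G.χ g : V.K) ^ i) =
      ((G.χ g : V.K)⁻¹) ^ l := by
    rw [← mul_assoc, ← pow_add, ← hl, pow_add, mul_comm (_ ^ i) (_ ^ l), mul_assoc, ← mul_pow,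
      inv_mul_cancel₀ h4, one_pow, mul_one]
  rw [← h6]
  ring

lemma coef_pow (G : GaloisAction V Γ) {j : ℕ} {w : V.H Z} (hw : w ∈ PH V Z 0) (m : ℕ) {v : V.H Z}
    (hv : v ∈ V.gr Z (2 * j)) :
    germ (coef G (pw Z m) (j * (m + 1)) (xpw V w m) (xpw V v m)) =
      germ (coef G Z j w v) ^ (m + 1) := by
  rw [← germ_pow]
  obtain ⟨Δ, hΔ, h1⟩ := xpw_act G Z m
  have i1 := (G.isGalois Z).finiteIndex
  refine germ_eq ⟨Δ ⊓ (G.ρ Z).dom, inferInstance, fun g hg => ?_⟩
  simp only [coef]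
  have h3 : (G.ρ Z).act g v ∈ PH V Z 0 :=
    PH.of' (by omega) ((G.isGalois Z).gr_mem g hg.2 _ _ hv)
  rw [h1 g hg.1, tr_xpw h3 hw, mul_pow, pow_mul]

lemma coef_fin (G : GaloisAction V Γ) (P : 𝒱.Obj) :
    ∃ M : Submodule V.K (Germs Γ V.K), Module.Finite V.K M ∧
      ∀ l, ∀ w : V.H P, ∀ t ∈ V.gr P (2 * l), germ (coef G P l w t) ∈ M := by
  classical
  let e := Module.finBasis V.K (V.H P)
  let F : Fin (P.dim + 1) × Fin (finrank V.K (V.H P)) × Fin (finrank V.K (V.H P)) →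
    Germs Γ V.K := fun p => germ (coef G P p.1 (e p.2.2) (e p.2.1))
  refine ⟨Submodule.span V.K (Set.range F),
    Module.Finite.span_of_finite V.K (Set.finite_range F), fun l w t ht => ?_⟩
  by_cases hl : l ≤ P.dim
  · have h1 : coef G P l w t = fun g => ∑ p : Fin (finrank V.K (V.H P)) ×
        Fin (finrank V.K (V.H P)), (e.repr t p.1 * e.repr w p.2) *
          coef G P l (e p.2) (e p.1) g := by
      funext g
      simp only [coef]
      have h2 : (G.ρ P).act g t = ∑ i, e.repr t i • (G.ρ P).act g (e i) := by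
        conv_lhs => rw [← e.sum_repr t, map_sum]
        exact Finset.sum_congr rfl fun i _ => by rw [map_smul]
      have h3 : w = ∑ i, e.repr w i • e i := (e.sum_repr w).symm
      rw [h2]
      conv_lhs => rw [h3]
      rw [Finset.sum_mul_sum, map_sum, Finset.mul_sum, Fintype.sum_prod_type]
      refine Finset.sum_congr rfl fun i _ => ?_
      rw [map_sum, Finset.mul_sum]
      refine Finset.sum_congr rfl fun i' _ => ?_
      rw [smul_mul_smul_comm, map_smul, smul_eq_mul]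
      ring
    rw [h1, germ_sum]
    refine Submodule.sum_mem _ fun p _ => ?_
    rw [germ_smul]
    exact Submodule.smul_mem _ _ (Submodule.subset_span
      ⟨(⟨l, by omega⟩, p.1, p.2), rfl⟩)
  · rw [V.gr_eq_bot P _ (by omega), Submodule.mem_bot] at ht
    rw [ht]
    have h1 : coef G P l w 0 = fun _ => 0 := by
      funext g
      simp only [coef]
      rw [map_zero, zero_mul, map_zero, mul_zero]
    rw [h1]
    have h2 : germ (fun _ : Γ => (0 : V.K)) = 0 := map_zero (Ideal.Quotient.mk (zeroIdeal Γ V.K))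
    rw [h2]
    exact Submodule.zero_mem _

/-- The matrix coefficients for a realisation. -/
noncomputable def rVals (R : Rl W V) (G : GaloisAction V Γ) {S : ClassPred W}
    (hS : ∀ {X j x}, S.P X j x → IsTate G X j (R.E X x)) :
    ValsU W S V.K (Germs Γ V.K) where
  Lam Z j := {f | ∃ w ∈ PH V Z 0, f = fun c => germ (coef G Z j w (R.E Z c))}
  add {Z j f} hf x y := by
    obtain ⟨w, -, rfl⟩ := hf
    beta_reduce
    rw [map_add]
    exact coef_add G j w _ _
  corr {P Z i j l c f} hc hf hl := by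
    obtain ⟨w, hw, rfl⟩ := hf
    obtain ⟨w', hw', h⟩ := coef_corr G (hS hc) hw ((R.κ (P.prod Z))⁻¹ * R.κ Z) hl
    refine ⟨_, ⟨w', hw', rfl⟩, fun t _ => ?_⟩
    beta_reduce
    rw [← R.corr]
    exact h _
  pow {Z j f} hf m := by
    obtain ⟨w, hw, rfl⟩ := hf
    refine ⟨_, ⟨xpw V w m, xpw_even hw m, rfl⟩, fun v hv => ?_⟩
    beta_reduce
    rw [R.xpower]
    exact coef_pow G hw m (R.gr hv)
  fin P := by
    obtain ⟨M, hM, h⟩ := coef_fin G P
    refine ⟨M, hM, fun l f hf t ht => ?_⟩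
    obtain ⟨w, -, rfl⟩ := hf
    exact h l w _ (R.gr ht)

/-- A class is a Tate class if its matrix coefficients are algebraic. -/
lemma isTate_of_alg (G : GaloisAction V Γ) {j : ℕ} {v : V.H Z} (hv : v ∈ V.gr Z (2 * j))
    (h : ∀ w ∈ PH V Z 0, IsAlgebraic V.K (germ (coef G Z j w v))) :
    IsTate G Z j v := by
  classical
  refine ⟨hv, ?_⟩
  let e := Module.finBasis V.K (V.H Z)
  -- the even parts of the elements of the basis
  let w : Fin (finrank V.K (V.H Z)) → V.H Z := fun i =>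
    H914.proj (V.isInternal Z) (2 * (Z.dim - j)) (e i)
  have hw : ∀ i, w i ∈ PH V Z 0 := fun i => PH.of' (by omega) (H914.proj_mem _ _ _)
  choose s hs hs' using fun i => finite_of_alg (h (w i) (hw i))
  choose Δ hΔ hΔ' using hs'
  have i1 := (G.isGalois Z).finiteIndex
  let D : Subgroup Γ := (⨅ i, Δ i) ⊓ (G.ρ Z).dom
  have hD : D.FiniteIndex := by
    have : (⨅ i, Δ i).FiniteIndex := Subgroup.finiteIndex_iInf hΔ
    exact inferInstance
  have hone : (G.ρ Z).act 1 = 1 := by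
    have h1 := (G.ρ Z).act_mul 1 (one_mem _) 1 (one_mem _)
    rw [mul_one] at h1
    exact mul_eq_left.1 h1.symm
  -- the twisted action
  let act : MulAction D (V.H Z) :=
    { smul := fun g x => ((G.χ g : V.K)⁻¹) ^ j • (G.ρ Z).act g x
      one_smul := fun x => by
        change ((G.χ (1 : Γ) : V.K)⁻¹) ^ j • (G.ρ Z).act (1 : Γ) x = x
        rw [map_one, hone, Units.val_one, inv_one, one_pow, one_smul]
        rfl
      mul_smul := fun g g' x => by
        change ((G.χ ((g : Γ) * g') : V.K)⁻¹) ^ j • (G.ρ Z).act ((g : Γ) * g') x =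
          ((G.χ (g : Γ) : V.K)⁻¹) ^ j • (G.ρ Z).act (g : Γ)
            (((G.χ (g' : Γ) : V.K)⁻¹) ^ j • (G.ρ Z).act (g' : Γ) x)
        rw [(G.ρ Z).act_mul _ g.2.2 _ g'.2.2, map_smul, smul_smul, map_mul, Units.val_mul, mul_inv,
          mul_pow]
        rfl }
  have hsm : ∀ (g : D) (x : V.H Z), g • x = ((G.χ (g : Γ) : V.K)⁻¹) ^ j •
    (G.ρ Z).act (g : Γ) x := fun _ _ => rfl
  -- the orbit is finite
  have hval : ∀ g : D, ∀ i, V.tr Z ((g • v) * w i) ∈ s i := by
    intro g i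
    have h1 := hΔ' i g (Subgroup.mem_iInf.1 g.2.1 i)
    rw [hsm, smul_mul_assoc, map_smul, smul_eq_mul]
    exact h1
  have hgr : ∀ g : D, g • v ∈ V.gr Z (2 * j) := by
    intro g
    rw [hsm]
    exact Submodule.smul_mem _ _ ((G.isGalois Z).gr_mem _ g.2.2 _ _ hv)
  have hfin : (MulAction.orbit D v).Finite := by
    let Φ : V.H Z → (Fin (finrank V.K (V.H Z)) → V.K) := fun x i => V.tr Z (x * w i)
    have hinj : Set.InjOn Φ (MulAction.orbit D v) := by
      rintro x ⟨g, rfl⟩ y ⟨g', rfl⟩ hxy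
      rw [← sub_eq_zero]
      set d := g • v - g' • v with hd
      have hdg : d ∈ V.gr Z (2 * j) := Submodule.sub_mem _ (hgr g) (hgr g')
      have h1 : ∀ i, V.tr Z (d * w i) = 0 := by
        intro i
        have h2 := congrFun hxy i
        simp only [Φ] at h2
        rw [hd, sub_mul, map_sub, sub_eq_zero]
        exact h2
      by_cases hj : j ≤ Z.dim
      · have h2 : ∀ y, V.tr Z (d * y) =
            V.tr Z (d * H914.proj (V.isInternal Z) (2 * (Z.dim - j)) y) := by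
          intro y
          refine gr_induction (V.isInternal Z) (p := fun y => V.tr Z (d * y) =
            V.tr Z (d * H914.proj (V.isInternal Z) (2 * (Z.dim - j)) y)) ?_ ?_ y
          · intro i y hy
            by_cases hi : i = 2 * (Z.dim - j)
            · subst hi
              rw [proj_same _ hy]
            · rw [proj_ne _ hy hi, mul_zero, map_zero]
              exact V.tr_eq_zero (V.mul_mem hdg hy) (by omega)
          · intro a b ha hb; rw [mul_add, map_add, ha, hb, map_add, mul_add, map_add]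
        apply V.nondeg
        intro y
        rw [← e.sum_repr y, Finset.mul_sum, map_sum]
        refine Finset.sum_eq_zero fun i _ => ?_
        rw [mul_smul_comm, map_smul, h2, h1 i, smul_zero]
      · rw [V.gr_eq_bot Z _ (by omega), Submodule.mem_bot] at hdg
        exact hdg
    refine Set.Finite.of_finite_image ?_ hinj
    refine (Set.Finite.pi' hs).subset ?_
    rintro _ ⟨_, ⟨g, rfl⟩, rfl⟩ i
    exact hval g i
  -- the stabiliser
  let S : Subgroup D := MulAction.stabilizer D v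
  have hS : S.FiniteIndex := by
    constructor
    change (MulAction.stabilizer D v).index ≠ 0
    rw [MulAction.index_stabilizer]
    have h1 : (MulAction.orbit D v).Nonempty := MulAction.nonempty_orbit _
    exact (Set.ncard_pos hfin).2 h1 |>.ne'
  refine ⟨S.map D.subtype, ?_, ?_⟩
  · constructor
    rw [Subgroup.index_map_subtype]
    exact mul_ne_zero hS.index_ne_zero hD.index_ne_zero
  · rintro _ ⟨g, hg, rfl⟩ _
    have h1 : g • v = v := hg
    rw [hsm] at h1
    have h4 : (G.χ (g : Γ) : V.K) ≠ 0 := Units.ne_zero _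
    change (G.ρ Z).act (g : Γ) v = (G.χ (g : Γ) : V.K) ^ j • v
    conv_rhs => rw [← h1, smul_smul, ← mul_pow, mul_inv_cancel₀ h4, one_pow, one_smul]

/-- If classes are generated by those on one power under correspondences given by classes whose
realisations are Tate classes, then their realisations are Tate classes. -/
theorem rTate_of_genBy (R : Rl W V) (G : GaloisAction V Γ) {S Q : ClassPred W}
    (hS : ∀ {X j x}, S.P X j x → IsTate G X j (R.E X x))
    (h : GenBy S.sys Q.sys X P) {n j : ℕ} {c : W.H (pw X n)}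
    (hc : Q.P (pw X n) j c) : IsTate G (pw X n) j (R.E (pw X n) c) :=
  isTate_of_alg G (R.gr (Q.gr hc)) fun w hw =>
    (rVals R G hS).alg (Q := Q) h hc (f := fun c => germ (coef G (pw X n) j w (R.E _ c)))
      ⟨w, hw, rfl⟩

end Pool.Agent.Q28.ZO
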