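import Pool.Agent.Q28.ZO.Tor
import Pool.Agent.Y121.AH.Span

/-!
# Realisations with arbitrary factors for the orientations
-/

open CategoryTheory AlgebraicGeometry TensorProduct

universe u

namespace Pool.Agent.Q28.ZO

open Module
open Pool.Agent.H914 Pool.Agent.H914.VarClass Pool.Agent.H914.VarClass.Obj
  Pool.Agent.H914.WeilCohomology
open Pool.Agent.Y133.Half
open Pool.Agent.Y121 Pool.Agent.Y121.AH

variable {k : Type u} [Field k] {𝒱 : VarClass k} {ops : CycleOps 𝒱}

/-- A semilinear realisation of the cohomology theory `W` in the cohomology theory `V`, which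
respects the orientations up to factors. -/
structure Rl (W V : WeilCohomology.{u, 0} ops) where
  /-- the homomorphism of the coefficients -/
  s : W.K →+* V.K
  /-- the factors -/
  κ : 𝒱.Obj → V.K
  ne : ∀ X, κ X ≠ 0
  /-- the homomorphisms -/
  E : ∀ X : 𝒱.Obj, W.H X →+* V.H X
  semi : ∀ (X : 𝒱.Obj) (r : W.K) (a : W.H X), E X (r • a) = s r • E X a
  gr : ∀ {X : 𝒱.Obj} {i : ℕ} {a : W.H X}, a ∈ W.gr X i → E X a ∈ V.gr X i
  nat : ∀ {X Y : 𝒱.Obj} (f : X ⟶ Y) (b : W.H Y), E X (W.map f b) = V.map f (E Y b)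
  span : ∀ X : 𝒱.Obj, Submodule.span V.K (Set.range (E X)) = ⊤
  tr : ∀ (X : 𝒱.Obj) (a : W.H X), V.tr X (E X a) = κ X * s (W.tr X a)

namespace Rl

variable {W V : WeilCohomology.{u, 0} ops} (R : Rl W V) {X Y Z P : 𝒱.Obj}

/-- Induction over linear combinations of images. -/
lemma ind {p : V.H X → Prop} (h : ∀ (r : V.K) (a : W.H X), p (r • R.E X a)) (h0 : p 0)
    (hadd : ∀ a b, p a → p b → p (a + b)) (x : V.H X) : p x := by
  have hx : x ∈ Submodule.span V.K (Set.range (R.E X)) := by rw [R.span]; trivial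
  have key : ∀ r : V.K, p (r • x) := by
    induction hx using Submodule.span_induction with
    | mem x hx => obtain ⟨a, rfl⟩ := hx; exact fun r => h r a
    | zero => intro r; rw [smul_zero]; exact h0
    | add x y _ _ hx hy => intro r; rw [smul_add]; exact hadd _ _ (hx r) (hy r)
    | smul c x _ hx => intro r; rw [smul_smul]; exact hx _
  have := key 1
  rwa [one_smul] at this

/-- The push-forward is respected up to factors. -/
lemma push (f : X ⟶ Y) (a : W.H X) :
    R.κ Y • V.push f (R.E X a) = R.κ X • R.E Y (W.push f a) := by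
  apply V.tr_ext
  intro b
  refine R.ind (p := fun b => V.tr Y (R.κ Y • V.push f (R.E X a) * b) =
    V.tr Y (R.κ X • R.E Y (W.push f a) * b)) ?_ ?_ ?_ b
  · intro r b
    rw [mul_smul_comm, mul_smul_comm, map_smul, map_smul, smul_mul_assoc, smul_mul_assoc,
      map_smul, map_smul, V.tr_push, ← R.nat, ← map_mul, ← map_mul, R.tr, R.tr, W.tr_push,
      smul_eq_mul, smul_eq_mul, smul_eq_mul, smul_eq_mul]
    ring
  · rw [mul_zero, mul_zero]
  · intro x y hx hy; rw [mul_add, mul_add, map_add, map_add, hx, hy]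

lemma push' (f : X ⟶ Y) (a : W.H X) :
    V.push f (R.E X a) = ((R.κ Y)⁻¹ * R.κ X) • R.E Y (W.push f a) := by
  rw [mul_smul, ← R.push, smul_smul, inv_mul_cancel₀ (R.ne Y), one_smul]

/-- The realisation of correspondences. -/
lemma corr (c : W.H (P.prod Z)) (x : W.H P) :
    ((R.κ (P.prod Z))⁻¹ * R.κ Z) • V.corr (R.E _ c) (R.E P x) = R.E Z (W.corr c x) := by
  rw [corr_apply, corr_apply, ← R.nat, ← map_mul, R.push', smul_smul]
  have h1 : (R.κ (P.prod Z))⁻¹ * R.κ Z * ((R.κ Z)⁻¹ * R.κ (P.prod Z)) = 1 := by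
    field_simp [R.ne Z, R.ne (P.prod Z)]
  rw [h1, one_smul]

lemma xprod (a : W.H X) (b : W.H Y) :
    R.E (X.prod Y) (xp W a b) = xp V (R.E X a) (R.E Y b) := by
  rw [xp, map_mul, R.nat, R.nat, xp]

lemma xpower (v : W.H Z) : ∀ m, R.E (pw Z m) (xpw W v m) = xpw V (R.E Z v) m
  | 0 => rfl
  | m + 1 => by
    have h := R.xprod (xpw W v m) v
    rw [xpower v m] at h
    exact h

end Rl

section Fix

variable {T : AH.HodgeTheory ops} {W : WeilCohomology.{u, 0} ops} {P Z X : 𝒱.Obj}
  (R : Rl W (CW T)) {S : Sys W}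

/-- The realisation of the operators of the system. -/
lemma rl_op_comm (hS : ∀ X, ∀ x ∈ S.C X, gop T X (R.E X x) = R.E X x)
    {f : W.H P →ₗ[W.K] W.H Z} (hf : f ∈ S.Op P Z) :
    ∃ F : (CW T).H P →ₗ[(CW T).K] (CW T).H Z,
      (∀ x, F (R.E P x) = R.E Z (f x)) ∧ ∀ y, gop T Z (F y) = F (gop T P y) := by
  obtain ⟨c, hc, rfl⟩ := Sys.mem_Op.1 hf
  refine ⟨((R.κ (P.prod Z))⁻¹ * R.κ Z) • (CW T).corr (R.E _ c), fun x => ?_, fun y => ?_⟩
  · rw [LinearMap.smul_apply, R.corr]
  · rw [LinearMap.smul_apply, LinearMap.smul_apply, corr_apply, corr_apply, map_smul, gop_push,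
      gop_mul, gop_map, hS _ c hc]

/-- Polynomial relations are inherited by the generated classes. -/
lemma rl_gen_rel (hS : ∀ X, ∀ x ∈ S.C X, gop T X (R.E X x) = R.E X x)
    {μ : Polynomial (CW T).K} (hμ : Polynomial.aeval (gop T P) μ = 0)
    {M : Submodule W.K (W.H P)} {x : W.H Z} (hx : x ∈ gen S P Z M) :
    Polynomial.aeval (gop T Z) μ (R.E Z x) = 0 := by
  induction hx using Submodule.span_induction with
  | mem x hx =>
    obtain ⟨f, hf, t, ht, rfl⟩ := hx
    obtain ⟨F, h1, h2⟩ := rl_op_comm R hS hf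
    rw [← h1, aeval_comm h2, hμ, LinearMap.zero_apply, map_zero]
  | zero => rw [map_zero, map_zero]
  | add x y _ _ hx hy => rw [map_add, map_add, hx, hy, add_zero]
  | smul r x _ hx => rw [R.semi, map_smul, hx, smul_zero]

/-- Polynomial relations for all external powers force a class to be fixed. -/
lemma fix_of_rel' {μ : Polynomial (CW T).K} (hμ : μ ≠ 0) {j : ℕ} {u : (CW T).H Z}
    (hE : u ∈ (CW T).gr Z (2 * j))
    (h : ∀ m, Polynomial.aeval (gop T (pw Z m)) μ (AH.xpw (CW T) u m) = 0) :
    gop T Z u = u := by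
  have hE0 : u ∈ PH (CW T) Z 0 := PH.of' (by omega) hE
  rw [← sub_eq_zero]
  apply (CW T).nondeg
  intro y
  refine pq_ind_nat (T := T) (p := fun y => (CW T).tr Z ((gop T Z u - u) * y) = 0)
    ?_ ?_ ?_ y
  · intro i a b hab y hy
    have hgy := gop_pq hy
    have h1 : (2 : (CW T).K) ^ (a - b) * (CW T).tr Z (gop T Z u * y) =
        (CW T).tr Z (u * y) := by
      rw [← smul_eq_mul, ← map_smul, ← mul_smul_comm, ← hgy, ← gop_mul, tr_gop]
    by_cases hab' : a = b
    · subst hab'
      rw [sub_self, zpow_zero, one_mul] at h1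
      rw [sub_mul, map_sub, h1, sub_self]
    · have hyi : y ∈ (CW T).gr Z i := T.dec.le Z hab hy
      have h2 : (CW T).tr Z (u * y) = 0 := by
        rcases Nat.even_or_odd' i with ⟨r, hr | hr⟩
        · -- the even case
          by_contra hne
          have hy0 : y ∈ PH (CW T) Z 0 := PH.of' (by omega) hyi
          have hb : (2 : (CW T).K) ^ (a - b) ≠ 0 := zpow_ne_zero _ two_ne
          have key : ∀ m : ℕ, μ.eval (((2 : (CW T).K) ^ (b - a)) ^ (m + 1)) = 0 := by
            intro m
            have h3 := gop_xpw hgy m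
            have h4 : ∀ x, (CW T).tr (pw Z m) (gop T (pw Z m) x * AH.xpw (CW T) y m) =
                ((2 : (CW T).K) ^ (b - a)) ^ (m + 1) *
                  (CW T).tr (pw Z m) (x * AH.xpw (CW T) y m) := by
              intro x
              have h5 : ((2 : (CW T).K) ^ (a - b)) ^ (m + 1) *
                  (CW T).tr (pw Z m) (gop T (pw Z m) x * AH.xpw (CW T) y m) =
                  (CW T).tr (pw Z m) (x * AH.xpw (CW T) y m) := by
                rw [← smul_eq_mul, ← map_smul, ← mul_smul_comm, ← h3, ← gop_mul, tr_gop]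
              rw [← h5, ← mul_assoc, ← mul_pow, ← zpow_add₀ two_ne]
              simp
            have h6 := aeval_form (g := gop T (pw Z m))
              (φ := (CW T).tr (pw Z m) ∘ₗ LinearMap.mulRight (CW T).K (AH.xpw (CW T) y m))
              (β := ((2 : (CW T).K) ^ (b - a)) ^ (m + 1)) h4 μ (AH.xpw (CW T) u m)
            rw [h m, map_zero] at h6
            have h7 : ((CW T).tr (pw Z m) ∘ₗ
                LinearMap.mulRight (CW T).K (AH.xpw (CW T) y m)) (AH.xpw (CW T) u m) =
                (CW T).tr Z (u * y) ^ (m + 1) := tr_xpw hE0 hy0 m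
            rw [h7] at h6
            exact (mul_eq_zero.1 h6.symm).resolve_right (pow_ne_zero _ hne)
          have hinj : Function.Injective fun m : ℕ => ((2 : (CW T).K) ^ (b - a)) ^ (m + 1) := by
            intro m m' hmm
            beta_reduce at hmm
            rw [← zpow_natCast, ← zpow_natCast, ← zpow_mul, ← zpow_mul] at hmm
            have h8 : (2 : (CW T).K) ^ ((b - a) * ((m + 1 : ℕ) : ℤ) -
                (b - a) * ((m' + 1 : ℕ) : ℤ)) = 1 := by
              rw [zpow_sub₀ two_ne, hmm, div_self (zpow_ne_zero _ two_ne)]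
            have h9 := two_zpow_ne h8
            rw [← mul_sub] at h9
            rcases mul_eq_zero.1 h9 with h10 | h10
            · exact absurd (by omega) hab'
            · push_cast at h10; omega
          have hfin : {x : (CW T).K | μ.IsRoot x}.Finite := Polynomial.finite_setOfPred_isRoot hμ
          have hinf : (Set.range fun m : ℕ => ((2 : (CW T).K) ^ (b - a)) ^ (m + 1)).Infinite :=
            Set.infinite_range_of_injective hinj
          exact hinf (hfin.subset (by rintro _ ⟨m, rfl⟩; exact key m))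
        · apply (CW T).tr_eq_zero ((CW T).mul_mem hE hyi)
          omega
      rw [h2] at h1
      have h3 := (mul_eq_zero.1 h1).resolve_left (zpow_ne_zero _ two_ne)
      rw [sub_mul, map_sub, h3, h2, sub_self]
  · intro a b ha hb; rw [mul_add, map_add, ha, hb, add_zero]
  · rw [mul_zero, map_zero]

/-- If the classes of `Q` on all powers of `X` are generated by those on one power under
correspondences given by the system `S`, which consists of classes whose realisations are fixed by
the operator, then their realisations are fixed by the operator. -/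
theorem rl_fix {S Q : Sys W} (hS : ∀ X, ∀ x ∈ S.C X, gop T X (R.E X x) = R.E X x)
    (h : GenBy S Q X P) {n j : ℕ} {c : W.H (pw X n)} (hc0 : c ∈ Q.C (pw X n))
    (hc : c ∈ W.gr (pw X n) (2 * j)) :
    gop T (pw X n) (R.E (pw X n) c) = R.E (pw X n) c := by
  refine fix_of_rel' (μ := (gop T P).charpoly)
    (LinearMap.charpoly_monic _).ne_zero (R.gr hc) fun m => ?_
  obtain ⟨r, hr⟩ := pw_pw X n m
  rw [← R.xpower]
  have h3 : ∀ m, xpw W c m ∈ Q.C (pw (pw X n) m) := by
    intro m
    induction m with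
    | zero => exact hc0
    | succ m ih => exact Sys.xp_mem_C Q ih hc0
  exact rl_gen_rel R hS (LinearMap.aeval_self_charpoly _) (h r _ hr (h3 m))

end Fix

end Pool.Agent.Q28.ZO
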