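import Pool.Agent.Q28.ZO.Lad
import Pool.Agent.Q28.ZO.Fin

/-!
# The span of the images of a class of rational classes, and descent
-/

open CategoryTheory AlgebraicGeometry TensorProduct Filter Topology

universe u

namespace Pool.Agent.Q28.ZO

open Module
open Pool.Agent.H914 Pool.Agent.H914.VarClass Pool.Agent.H914.VarClass.Obj
  Pool.Agent.H914.WeilCohomology
open Pool.Agent.Y133.Half
open Pool.Agent.Y121 Pool.Agent.Y121.AH
open Pool.Agent.Q60.MT (Artin IsExtension InSpan)

variable {k : Type u} [Field k] {𝒱 : VarClass k} {ops : CycleOps 𝒱}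

variable {T : AH.HodgeTheory ops} {W' : WeilCohomology.{u, 0} ops} {X Y P : 𝒱.Obj}
  (C : Artin T.W W')

/-- The comparison respects the classes of cycles up to nonzero factors. -/
def RespCl {W W' : WeilCohomology.{u, 0} ops} (C : Artin W W') : Prop :=
  ∀ (X : 𝒱.Obj) (j : ℕ) (z : X.Cycles), X.IsCyc j z →
    ∃ r : W'.K, r ≠ 0 ∧ C.f X (W.cl X z) = r • W'.cl X z

/-- **Descent.** If the realisations of a class for all conjugates of an embedding of the
coefficients lie in a subspace, then the class is a linear combination of rational classes in this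
subspace. -/
theorem mem_span_of_conj (τ : W'.K →+* ℂ) {c : W'.H X} (U : Submodule (CW T).K ((CW T).H X))
    (h : ∀ g : ℂ ≃+* ℂ, (rlE C (g.toRingHom.comp τ)).E X c ∈ U) :
    c ∈ Submodule.span W'.K (C.f X '' {x | em T.W ℂ x ∈ U}) := by
  classical
  let e := Module.finBasis T.W.K (T.W.H X)
  obtain ⟨e', he'⟩ := Pool.Agent.Q60.MT.exists_eX C T.rat e
  let b := Basis.ofVectorSpace ℚ W'.K
  let s := Finset.univ.biUnion fun i => (b.repr (e'.repr c i)).support
  let x : Basis.ofVectorSpaceIndex ℚ W'.K → T.W.H X := fun m =>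
    ∑ i, ((b.repr (e'.repr c i) m : ℚ) : T.W.K) • e i
  have hc : c = ∑ m ∈ s, b m • C.f X (x m) := by
    have h1 : ∀ i, e'.repr c i = ∑ m ∈ s, ((b.repr (e'.repr c i) m : ℚ) : W'.K) * b m := by
      intro i
      have h2 : e'.repr c i = ∑ m ∈ (b.repr (e'.repr c i)).support,
          b.repr (e'.repr c i) m • b m := (b.linearCombination_repr _).symm
      conv_lhs => rw [h2]
      refine Finset.sum_subset_zero_on_sdiff (Finset.subset_biUnion_of_mem
        (fun i => (b.repr (e'.repr c i)).support) (Finset.mem_univ i)) ?_ ?_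
      · intro m hm
        rw [Finset.mem_sdiff, Finsupp.mem_support_iff, not_not] at hm
        rw [hm.2, Rat.cast_zero, zero_mul]
      · intro m _
        rw [Algebra.smul_def]
        rfl
    have h3 : ∀ m, C.f X (x m) = ∑ i, ((b.repr (e'.repr c i) m : ℚ) : W'.K) • e' i := by
      intro m
      simp only [x]
      rw [map_sum]
      exact Finset.sum_congr rfl fun i _ => by rw [Pool.Agent.Q60.MT.C_smul, he']
    calc c = ∑ i, e'.repr c i • e' i := (e'.sum_repr c).symm
      _ = ∑ i, ∑ m ∈ s, (b m * ((b.repr (e'.repr c i) m : ℚ) : W'.K)) • e' i := by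
        refine Finset.sum_congr rfl fun i _ => ?_
        conv_lhs => rw [h1 i, Finset.sum_smul]
        exact Finset.sum_congr rfl fun m _ => by rw [mul_comm]
      _ = ∑ m ∈ s, ∑ i, (b m * ((b.repr (e'.repr c i) m : ℚ) : W'.K)) • e' i :=
        Finset.sum_comm
      _ = ∑ m ∈ s, b m • C.f X (x m) := by
        refine Finset.sum_congr rfl fun m _ => ?_
        rw [h3, Finset.smul_sum]
        exact Finset.sum_congr rfl fun i _ => by rw [mul_smul]
  have hind : LinearIndependent ℚ fun m => τ (b m) := by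
    have h1 := b.linearIndependent.map' τ.toRatAlgHom.toLinearMap
      (LinearMap.ker_eq_bot.2 τ.injective)
    exact h1
  have key : ∀ m ∈ s, em T.W ℂ (x m) ∈ U := by
    intro m hm
    by_contra hcon
    obtain ⟨φ, hφ, hφp⟩ := Submodule.exists_dual_map_eq_bot_of_notMem hcon inferInstance
    apply hφ
    refine aut_indep hind _ s rfl (fun m => φ (em T.W ℂ (x m))) ?_ m hm
    intro g
    have h1 : φ ((rlE C (g.toRingHom.comp τ)).E X c) = 0 := by
      have h2 := Submodule.mem_map_of_mem (f := φ) (h g)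
      rw [hφp, Submodule.mem_bot] at h2
      exact h2
    rw [hc, map_sum, map_sum] at h1
    refine Eq.trans (Finset.sum_congr rfl fun m _ => ?_) h1
    rw [(rlE C (g.toRingHom.comp τ)).semi, rlE_C, map_smul, smul_eq_mul]
    exact mul_comm (φ (em T.W ℂ (x m)) : ℂ) (g (τ (b m)))
  rw [hc]
  exact Submodule.sum_mem _ fun m hm =>
    Submodule.smul_mem _ _ (Submodule.subset_span ⟨x m, key m hm, rfl⟩)

lemma gr_of_pq {j : ℕ} {x : T.W.H X} (h : em T.W ℂ x ∈ T.pq X j j) : x ∈ T.W.gr X (2 * j) := by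
  have h1 : em T.W ℂ x ∈ (CW T).gr X (2 * j) := T.dec.le X (by push_cast; ring) h
  exact mem_of_em_mem h1

/-- The linear combinations of the images of the classes with the property `S`. -/
noncomputable def spanPred (hC : RespCl C) (S : ClassPred T.W) : ClassPred W' where
  P X j c := InSpan W'.K (C.f X) (S.P X j) c
  gr {X j c} hc := by
    refine (Submodule.span_le.2 ?_ : _ ≤ W'.gr X (2 * j)) hc
    rintro _ ⟨x, hx, rfl⟩
    exact Artin.gr (C := C) (S.gr hx)
  zero := Submodule.zero_mem _
  add ha hb := Submodule.add_mem _ ha hb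
  smul r _ ha := Submodule.smul_mem _ r ha
  cl {X j z} hz := by
    obtain ⟨r, hr, h⟩ := hC X j z hz
    have h1 : W'.cl X z = r⁻¹ • C.f X (T.W.cl X z) := by
      rw [h, smul_smul, inv_mul_cancel₀ hr, one_smul]
    rw [InSpan, h1]
    exact Submodule.smul_mem _ _ (Submodule.subset_span ⟨_, S.cl hz, rfl⟩)
  mul {X i j a b} ha hb := by
    have ha' : a ∈ Submodule.span W'.K (C.f X '' {x | S.P X i x}) := ha
    have hb' : b ∈ Submodule.span W'.K (C.f X '' {x | S.P X j x}) := hb
    change a * b ∈ Submodule.span W'.K (C.f X '' {x | S.P X (i + j) x})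
    induction ha' using Submodule.span_induction with
    | mem x hx =>
      obtain ⟨x, hx, rfl⟩ := hx
      induction hb' using Submodule.span_induction with
      | mem y hy =>
        obtain ⟨y, hy, rfl⟩ := hy
        rw [← map_mul]
        exact Submodule.subset_span ⟨_, S.mul hx hy, rfl⟩
      | zero => rw [mul_zero]; exact Submodule.zero_mem _
      | add u v hu hv h1 h2 =>
        rw [mul_add]; exact Submodule.add_mem _ (h1 hu) (h2 hv)
      | smul r u hu h1 => rw [mul_smul_comm]; exact Submodule.smul_mem _ _ (h1 hu)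
    | zero => rw [zero_mul]; exact Submodule.zero_mem _
    | add u v hu hv h1 h2 => rw [add_mul]; exact Submodule.add_mem _ (h1 hu) (h2 hv)
    | smul r u hu h1 => rw [smul_mul_assoc]; exact Submodule.smul_mem _ _ (h1 hu)
  map {X Y} f {j a} ha := by
    refine (Submodule.span_le.2 ?_ : Submodule.span W'.K (C.f Y '' {x | S.P Y j x}) ≤
      (Submodule.span W'.K (C.f X '' {x | S.P X j x})).comap (W'.map f).toLinearMap) ha
    rintro _ ⟨x, hx, rfl⟩
    have h1 : C.f X (T.W.map f x) ∈ Submodule.span W'.K (C.f X '' {x | S.P X j x}) :=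
      Submodule.subset_span ⟨_, S.map f hx, rfl⟩
    rw [Artin.map] at h1
    exact h1
  push {X Y} f {j l} hl {a} ha := by
    refine (Submodule.span_le.2 ?_ : Submodule.span W'.K (C.f X '' {x | S.P X j x}) ≤
      (Submodule.span W'.K (C.f Y '' {x | S.P Y l x})).comap (W'.push f)) ha
    rintro _ ⟨x, hx, rfl⟩
    have h1 : W'.push f (C.f X x) = _ • C.f Y (T.W.push f x) := (rlC C).push' f x
    have h2 : W'.push f (C.f X x) ∈ Submodule.span W'.K (C.f Y '' {x | S.P Y l x}) := by
      rw [h1]
      exact Submodule.smul_mem _ _ (Submodule.subset_span ⟨_, S.push f hl hx, rfl⟩)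
    exact h2

variable {C} {S : ClassPred T.W} {hC : RespCl C}

lemma spanPred_sp (Z : 𝒱.Obj) : (spanPred C hC S).sys.C Z =
    Submodule.span W'.K (C.f Z '' (S.sys.C Z : Set (T.W.H Z))) := by
  apply le_antisymm
  · change Submodule.span W'.K {c | ∃ j, InSpan W'.K (C.f Z) (S.P Z j) c} ≤ _
    rw [Submodule.span_le]
    rintro c ⟨j, hc⟩
    refine (Submodule.span_mono ?_ : _ ≤ _) hc
    rintro _ ⟨x, hx, rfl⟩
    exact ⟨x, ClassPred.sp_of (Q := S) hx, rfl⟩
  · rw [Submodule.span_le]
    rintro _ ⟨x, hx, rfl⟩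
    refine ClassPred.sp_ind (Q := S) (q := fun x => C.f Z x ∈ (spanPred C hC S).sys.C Z)
      ?_ ?_ ?_ hx
    · intro j x hx
      refine ClassPred.sp_of (Q := spanPred C hC S) (j := j) ?_
      exact Submodule.subset_span ⟨x, hx, rfl⟩
    · rw [map_zero]; exact Submodule.zero_mem _
    · intro a b ha hb; rw [map_add]; exact Submodule.add_mem _ ha hb

/-- The coefficients are extended. -/
lemma spanPred_basis (Z : 𝒱.Obj) : ∃ b : Basis (Fin (finrank T.W.K (S.sys.C Z))) W'.K
    ((spanPred C hC S).sys.C Z), ∀ i, ((b i : W'.H Z)) =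
      C.f Z ((Module.finBasis T.W.K (S.sys.C Z) i : S.sys.C Z) : T.W.H Z) := by
  set m := Module.finBasis T.W.K (S.sys.C Z) with hm
  have h1 : LinearIndependent T.W.K fun i => ((m i : S.sys.C Z) : T.W.H Z) :=
    m.linearIndependent.map' (S.sys.C Z).subtype (Submodule.ker_subtype _)
  have h2 := (C.ext Z).1 _ _ h1
  have h3 : Submodule.span W'.K (Set.range fun i => C.f Z ((m i : S.sys.C Z) : T.W.H Z)) =
      (spanPred C hC S).sys.C Z := by
    rw [spanPred_sp]
    apply le_antisymm
    · rw [Submodule.span_le]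
      rintro _ ⟨i, rfl⟩
      exact Submodule.subset_span ⟨_, (m i).2, rfl⟩
    · rw [Submodule.span_le]
      rintro _ ⟨x, hx, rfl⟩
      have h4 : x = ∑ i, m.repr ⟨x, hx⟩ i • ((m i : S.sys.C Z) : T.W.H Z) := by
        have := congrArg (fun y : S.sys.C Z => (y : T.W.H Z)) (m.sum_repr ⟨x, hx⟩)
        refine this.symm.trans ?_
        exact Submodule.coe_sum _ _ _
      rw [h4, map_sum]
      refine Submodule.sum_mem _ fun i _ => ?_
      rw [C_smul]
      exact Submodule.smul_mem _ _ (Submodule.subset_span ⟨i, rfl⟩)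
  let b := Basis.span h2
  refine ⟨b.map (LinearEquiv.ofEq _ _ h3), fun i => ?_⟩
  rw [Basis.map_apply, LinearEquiv.coe_ofEq_apply]
  exact congrArg Subtype.val (Basis.span_apply h2 i)

lemma spanPred_dim (Z : 𝒱.Obj) : dimBy W' (spanPred C hC S).P Z = dimBy T.W S.P Z := by
  obtain ⟨b, -⟩ := spanPred_basis (C := C) (S := S) (hC := hC) Z
  have h1 := finrank_eq_card_basis b
  rw [Fintype.card_fin] at h1
  exact h1

lemma spanPred_nondeg {Z : 𝒱.Obj} (h : S.sys.Nondeg Z) : (spanPred C hC S).sys.Nondeg Z := by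
  classical
  obtain ⟨b, hb⟩ := spanPred_basis (C := C) (S := S) (hC := hC) Z
  set m := Module.finBasis T.W.K (S.sys.C Z) with hm
  -- the dual basis
  let Φ : S.sys.C Z →ₗ[T.W.K] Dual T.W.K (S.sys.C Z) :=
    { toFun := fun y => (T.W.tr Z ∘ₗ LinearMap.mulRight T.W.K (y : T.W.H Z)) ∘ₗ (S.sys.C Z).subtype
      map_add' := fun y y' => by
        ext x
        simp [mul_add]
      map_smul' := fun r y => by
        ext x
        simp }
  have hΦ : Function.Injective Φ := by
    rw [injective_iff_map_eq_zero]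
    intro y hy
    apply Subtype.ext
    refine h _ y.2 fun x hx => ?_
    have h1 := congrArg (fun f : Dual T.W.K (S.sys.C Z) => f ⟨x, hx⟩) hy
    rw [PH.even_comm (S.sys.even y.2)]
    exact h1
  have hΦs : Function.Surjective Φ := by
    have hd : finrank T.W.K (S.sys.C Z) = finrank T.W.K (Dual T.W.K (S.sys.C Z)) :=
      (Subspace.dual_finrank_eq).symm
    exact (LinearMap.injective_iff_surjective_of_finrank_eq_finrank hd).1 hΦ
  intro x hx hx0
  have key : ∀ i, b.repr ⟨x, hx⟩ i = 0 := by
    intro i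
    obtain ⟨y, hy⟩ := hΦs (m.coord i)
    have hyi : ∀ l, T.W.tr Z ((m l : T.W.H Z) * (y : T.W.H Z)) = if l = i then 1 else 0 := by
      intro l
      have h1 := congrArg (fun f : Dual T.W.K (S.sys.C Z) => f (m l)) hy
      have h2 : m.coord i (m l) = if l = i then 1 else 0 := by
        rw [Basis.coord_apply, Basis.repr_self, Finsupp.single_apply]
      exact h1.trans h2
    have h3 : C.f Z (y : T.W.H Z) ∈ (spanPred C hC S).sys.C Z := by
      rw [spanPred_sp]
      exact Submodule.subset_span ⟨_, y.2, rfl⟩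
    have h4 := hx0 _ h3
    have h5 : x = ∑ l, b.repr ⟨x, hx⟩ l • C.f Z (m l : T.W.H Z) := by
      have := congrArg (fun y : (spanPred C hC S).sys.C Z => (y : W'.H Z))
        (b.sum_repr ⟨x, hx⟩)
      refine this.symm.trans ((Submodule.coe_sum _ _ _).trans ?_)
      exact Finset.sum_congr rfl fun l _ => by rw [Submodule.coe_smul, hb]
    rw [h5, Finset.sum_mul, map_sum] at h4
    have h6 : ∀ l, W'.tr Z (b.repr ⟨x, hx⟩ l • C.f Z (m l : T.W.H Z) * C.f Z (y : T.W.H Z)) =
        if l = i then b.repr ⟨x, hx⟩ l * (rlC C).κ Z else 0 := by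
      intro l
      have h7 : W'.tr Z (C.f Z ((m l : T.W.H Z) * (y : T.W.H Z))) =
          (rlC C).κ Z * sig T W' (T.W.tr Z ((m l : T.W.H Z) * (y : T.W.H Z))) := (rlC C).tr Z _
      rw [smul_mul_assoc, map_smul, ← map_mul, h7, hyi, smul_eq_mul]
      split_ifs
      · rw [map_one, mul_one]
      · rw [map_zero, mul_zero, mul_zero]
    simp only [h6] at h4
    rw [Finset.sum_ite_eq' Finset.univ i, if_pos (Finset.mem_univ i)] at h4
    exact (mul_eq_zero.1 h4).resolve_right ((rlC C).ne Z)
  have h8 : (⟨x, hx⟩ : (spanPred C hC S).sys.C Z) = 0 := by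
    apply b.repr.injective
    ext i
    rw [key i, map_zero, Finsupp.zero_apply]
  exact congrArg (fun y : (spanPred C hC S).sys.C Z => (y : W'.H Z)) h8

end Pool.Agent.Q28.ZO
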