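import Pool.Agent.Q60.MT.Defs
import Pool.Agent.Q57.DS.Defs

/-!
# Hodge classes, Tate classes, and rational classes which are both: definitions
-/

open CategoryTheory AlgebraicGeometry

universe u w

namespace Pool.Agent.Q28.ZO

open Pool.Agent.H914 Pool.Agent.H914.VarClass Pool.Agent.H914.VarClass.Obj
  Pool.Agent.H914.WeilCohomology
open Pool.Agent.Y121.AHS (HodgeTheory IsHodge)
open Pool.Agent.Q55 (GaloisAction IsTate)
open Pool.Agent.Q60.MT (Artin)
open Pool.Agent.Q57.DS (Cls IsAlg)

variable {k : Type u} [Field k] {𝒱 : VarClass k} {ops : CycleOps 𝒱}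

/-- The comparison maps `C` send the classes of cycles to nonzero multiples of the classes of the
same cycles. -/
def RespectsCycles {W W' : WeilCohomology.{u, 0} ops} (C : Artin W W') : Prop :=
  ∀ (X : 𝒱.Obj) (j : ℕ) (z : X.Cycles), X.IsCyc j z →
    ∃ r : W'.K, r ≠ 0 ∧ C.f X (W.cl X z) = r • W'.cl X z

variable {T : HodgeTheory ops} {W' : WeilCohomology.{u, 0} ops} {Γ : Type w} [Group Γ]

/-- The HT classes: the rational classes `c` in `H^(2 j)(X)` which are Hodge classes and whose images
in `l`-adic cohomology are Tate classes. -/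
def IsHT (C : Artin T.W W') (G : GaloisAction W' Γ) : Cls T.W := fun X j c =>
  IsHodge T X j c ∧ IsTate G X j (C.f X c)

/-- The rational Tate classes: the rational classes in `H^(2 j)(X)` whose images in `l`-adic
cohomology are Tate classes. -/
def IsRatTate (C : Artin T.W W') (G : GaloisAction W' Γ) : Cls T.W := fun X j c =>
  IsTate G X j (C.f X c)

/-- All Tate classes on `X` are linear combinations of images of HT classes. -/
def TateAreHT (C : Artin T.W W') (G : GaloisAction W' Γ) (X : 𝒱.Obj) : Prop :=
  ∀ j c, IsTate G X j c → Pool.Agent.Q60.MT.InSpan W'.K (C.f X) (IsHT C G X j) c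

/-- The images of all Hodge classes on `X` are Tate classes. -/
def HodgeAreTate (C : Artin T.W W') (G : GaloisAction W' Γ) (X : 𝒱.Obj) : Prop :=
  ∀ j c, IsHodge T X j c → IsTate G X j (C.f X c)

/-- All rational Tate classes on `X` are Hodge classes. -/
def RatTateAreHodge (C : Artin T.W W') (G : GaloisAction W' Γ) (X : 𝒱.Obj) : Prop :=
  ∀ j c, IsRatTate C G X j c → IsHodge T X j c

/-- The Hodge conjecture for `X`: all Hodge classes are linear combinations of classes of
cycles. -/
def HodgeConj (T : HodgeTheory ops) (X : 𝒱.Obj) : Prop :=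
  ∀ j c, IsHodge T X j c → IsAlg T.W X j c

/-- The Tate conjecture for `X`: all Tate classes are linear combinations of classes of cycles. -/
def TateConj (G : GaloisAction W' Γ) (X : 𝒱.Obj) : Prop :=
  ∀ j c, IsTate G X j c → IsAlg W' X j c

end Pool.Agent.Q28.ZO
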