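import Pool.Agent.Q28.ZO.CAct

/-!
# The zero-one law for Tate classes
-/

open CategoryTheory AlgebraicGeometry TensorProduct Filter Topology

universe u w

namespace Pool.Agent.Q28.ZO

open Module
open Pool.Agent.H914 Pool.Agent.H914.VarClass Pool.Agent.H914.VarClass.Obj
  Pool.Agent.H914.WeilCohomology
open Pool.Agent.Y133.Half
open Pool.Agent.Y121 Pool.Agent.Y121.AH
open Pool.Agent.Q60.MT (Artin InSpan)
open Pool.Agent.Q55 (GaloisAction IsTate tatePred Virtually)

variable {k : Type u} [Field k] {𝒱 : VarClass k} {ops : CycleOps 𝒱}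

variable {T : AH.HodgeTheory ops} {W' : WeilCohomology.{u, 0} ops} {X Y P : 𝒱.Obj}
  {C : Artin T.W W'} {Γ : Type w} [Group Γ]

/-- The Tate classes of degree `2 j` as a subspace. -/
def tateSub {V : WeilCohomology.{u, 0} ops} (G : GaloisAction V Γ) (X : 𝒱.Obj) (j : ℕ) :
    Submodule V.K (V.H X) where
  carrier := {y | IsTate G X j y}
  zero_mem' := (tatePred G).zero
  add_mem' := (tatePred G).add
  smul_mem' r _ := (tatePred G).smul r

/-- The dichotomy for a nondegenerate property of rational classes and a property of classes in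
l-adic cohomology. -/
theorem span_or (hC : RespCl C) (S : ClassPred T.W) (Q : ClassPred W')
    (hSQ : ∀ {X j x}, S.P X j x → Q.P X j (C.f X x)) (hnd : ∀ n, S.sys.Nondeg (pw X n))
    (hl : ∃ l ∈ S.sys.C X, T.W.tr X l = 1) :
    (∃ P : 𝒱.Obj, GenBy (spanPred C hC S).sys Q.sys X P) ∨
      Tendsto (fun n => (dimBy T.W S.P (pw X n) : ℝ) / dimBy W' Q.P (pw X n)) atTop (𝓝 0) := by
  have hSQ' : ∀ {X j c}, (spanPred C hC S).P X j c → Q.P X j c := by
    intro X j c hc
    have hc' : c ∈ Submodule.span W'.K (C.f X '' {x | S.P X j x}) := hc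
    induction hc' using Submodule.span_induction with
    | mem x hx => obtain ⟨x, hx, rfl⟩ := hx; exact hSQ hx
    | zero => exact Q.zero
    | add u v _ _ h1 h2 => exact Q.add (h1 ‹_›) (h2 ‹_›)
    | smul r u _ h1 => exact Q.smul r (h1 ‹_›)
  have hl' : ∃ l ∈ (spanPred C hC S).sys.C X, W'.tr X l = 1 := by
    obtain ⟨l, hl, hl1⟩ := hl
    have h1 : W'.tr X (C.f X l) = (rlC C).κ X * sig T W' (T.W.tr X l) := (rlC C).tr X l
    refine ⟨((rlC C).κ X)⁻¹ • C.f X l, ?_, ?_⟩
    · rw [spanPred_sp]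
      exact Submodule.smul_mem _ _ (Submodule.subset_span ⟨l, hl, rfl⟩)
    · rw [map_smul, h1, hl1, map_one, mul_one, smul_eq_mul, inv_mul_cancel₀ ((rlC C).ne X)]
  have h := gen_or (spanPred C hC S) Q hSQ' (X := X) (fun n => spanPred_nondeg (hnd n)) hl'
  simp only [spanPred_dim] at h
  exact h

/-- The realisations of generated classes are of type `(j, j)`. -/
lemma pq_of_genBy (τ : W'.K →+* ℂ) (hC : RespCl C) {S : ClassPred T.W}
    (hSH : ∀ {X j x}, S.P X j x → AH.IsHodge T X j x) {Q : ClassPred W'}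
    (hP : GenBy (spanPred C hC S).sys Q.sys X P) {n j : ℕ} {c : W'.H (pw X n)}
    (hc : Q.P (pw X n) j c) : (rlE C τ).E (pw X n) c ∈ T.pq (pw X n) j j := by
  refine pq_of_fix' ((rlE C τ).gr (Q.gr hc)) ?_
  refine rl_fix (rlE C τ) (fun Z x hx => ?_) hP (ClassPred.sp_of (Q := Q) hc) (Q.gr hc)
  rw [spanPred_sp] at hx
  induction hx using Submodule.span_induction with
  | mem x hx =>
    obtain ⟨x, hx, rfl⟩ := hx
    rw [rlE_C]
    exact hodge_fix (ClassPred.sys_le (Q := S) (R := hodgePred T) hSH Z hx)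
  | zero => rw [map_zero, map_zero]
  | add u v _ _ h1 h2 => rw [map_add, map_add, h1, h2]
  | smul r u _ h1 => rw [(rlE C τ).semi, map_smul, h1]

/-- The realisations of generated classes are Tate classes. -/
lemma cTate_of_genBy (τ σ : W'.K →+* ℂ) (hC : RespCl C) (G : GaloisAction W' Γ)
    {S : ClassPred T.W} (hST : ∀ {X j x}, S.P X j x → IsTate G X j (C.f X x))
    {Q : ClassPred W'}
    (hP : GenBy (spanPred C hC S).sys Q.sys X P) {n j : ℕ} {c : W'.H (pw X n)}
    (hc : Q.P (pw X n) j c) : IsTate (cAct C τ hC G) (pw X n) j ((rlE C σ).E (pw X n) c) := by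
  refine rTate_of_genBy (rlE C σ) (cAct C τ hC G) (S := spanPred C hC S) (Q := Q) ?_ hP hc
  intro X j x hx
  have hx' : x ∈ Submodule.span W'.K (C.f X '' {x | S.P X j x}) := hx
  clear hx
  induction hx' using Submodule.span_induction with
  | mem x hx =>
    obtain ⟨x, hx, rfl⟩ := hx
    rw [rlE_C]
    exact cTate_of_tate C τ hC G (hST hx) (S.gr hx)
  | zero => rw [map_zero]; exact (tatePred _).zero
  | add u v _ _ h1 h2 => rw [map_add]; exact (tatePred _).add h1 h2
  | smul r u _ h1 => rw [(rlE C σ).semi]; exact (tatePred _).smul _ h1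

/-- **The zero-one law for Tate classes.** -/
theorem tate_or (τ : W'.K →+* ℂ) (hC : RespCl C) (G : GaloisAction W' Γ) (X : 𝒱.Obj)
    [Nontrivial (T.W.H X)] :
    (∀ n j c, IsTate G (pw X n) j c →
      InSpan W'.K (C.f (pw X n)) ((htPred hC G).P (pw X n) j) c) ∨
    Tendsto (fun n => (dimBy T.W (htPred hC G).P (pw X n) : ℝ) / dimBy W' (IsTate G) (pw X n))
      atTop (𝓝 0) := by
  rcases span_or hC (htPred hC G) (tatePred G) (fun {X j x} h => h.2)
    (fun n => ht_nondeg hC G (pw X n)) (ht_tr hC G X) with ⟨P, hP⟩ | h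
  · left
    intro n j c hc
    have h1 := mem_span_of_conj C τ
      ((T.pq (pw X n) j j) ⊓ tateSub (cAct C τ hC G) (pw X n) j) (c := c) fun g =>
        ⟨pq_of_genBy (g.toRingHom.comp τ) hC (S := htPred hC G) (fun {X j x} h => h.1)
          (Q := tatePred G) hP hc,
        cTate_of_genBy τ (g.toRingHom.comp τ) hC G (S := htPred hC G) (fun {X j x} h => h.2)
          (Q := tatePred G) hP hc⟩
    refine Submodule.span_mono (Set.image_mono ?_) h1
    rintro x ⟨hx1, hx2⟩
    have hx : x ∈ T.W.gr (pw X n) (2 * j) := gr_of_pq hx1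
    exact ⟨⟨hx, hx1⟩, tate_of_cTate C τ hC G hx hx2⟩
  · exact Or.inr h

end Pool.Agent.Q28.ZO
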