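import Pool.Agent.Q28.ZO.GVal
import Pool.Agent.Q28.ZO.Tate2
import Pool.Agent.Q28.ZO.TDefs
import Pool.Agent.Q28.ZO.Per

/-!
# The zero-one laws for Hodge classes and Tate classes
-/

open CategoryTheory AlgebraicGeometry Filter Topology

universe u w

namespace Pool.Agent.Q28.ZO

open Module
open Pool.Agent.H914 Pool.Agent.H914.VarClass Pool.Agent.H914.VarClass.Obj
  Pool.Agent.H914.WeilCohomology
open Pool.Agent.Y121 Pool.Agent.Y121.AHS
open Pool.Agent.Y133.Half
open Pool.Agent.Q55 (GaloisAction IsTate)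
open Pool.Agent.Q60.MT (Artin MumfordTate)
open Pool.Agent.Q57.DS (Cls IsAlg dimP cycRk)

variable {k : Type u} [Field k] {𝒱 : VarClass k} {ops : CycleOps 𝒱}

variable {T : HodgeTheory ops} {W' : WeilCohomology.{u, 0} ops} {Γ : Type w} [Group Γ]
  {C : Artin T.W W'} (hC : RespectsCycles C) (G : GaloisAction W' Γ) (X : 𝒱.Obj)

/-- The predicate of the HT classes. -/
noncomputable def htP (hC : RespectsCycles C) (G : GaloisAction W' Γ) : ClassPred T.W :=
  htPred (T := toH T) (C := C) hC G

lemma htP_P : (htP hC G).P = IsHT C G := rfl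

section Laws

variable [Nontrivial (T.W.H X)]

include hC in
theorem t_law (τ : W'.K →+* ℂ) : (∀ n, TateAreHT C G (pw X n)) ∨
    RatioToZero (fun n => dimP (IsHT C G) (pw X n)) fun n => dimP (IsTate G) (pw X n) := by
  have hX : Nontrivial ((toH T).W.H X) := inferInstanceAs (Nontrivial (T.W.H X))
  exact tate_or (T := toH T) (C := C) τ hC G X

/-- The rational Tate classes. -/
noncomputable def rtPred {T : AH.HodgeTheory ops} {C : Artin T.W W'} (hC : RespCl C)
    (G : GaloisAction W' Γ) : ClassPred T.W where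
  P X j x := IsTate G X j (C.f X x)
  gr {X j x} h := by
    have h1 := h.1
    have h2 : C.f X (H914.proj (T.W.isInternal X) (2 * j) x) = C.f X x := by
      rw [← proj_C, proj_same _ h1]
    have h3 : H914.proj (T.W.isInternal X) (2 * j) x - x = 0 :=
      C_inj C (by rw [map_sub, h2, sub_self])
    rw [← sub_eq_zero.1 h3]
    exact H914.proj_mem _ _ _
  zero {X j} := by rw [map_zero]; exact (Pool.Agent.Q55.tatePred G).zero
  add {X j a b} ha hb := by rw [map_add]; exact (Pool.Agent.Q55.tatePred G).add ha hb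
  smul {X j} r {a} ha := by rw [C_smul]; exact (Pool.Agent.Q55.tatePred G).smul _ ha
  cl {X j z} hz := by
    obtain ⟨r, -, hr⟩ := hC X j z hz
    rw [hr]; exact (Pool.Agent.Q55.tatePred G).smul _ ((Pool.Agent.Q55.tatePred G).cl hz)
  mul {X i j a b} ha hb := by rw [map_mul]; exact (Pool.Agent.Q55.tatePred G).mul ha hb
  map {X Y} f {j a} h := by rw [Artin.map]; exact (Pool.Agent.Q55.tatePred G).map f h
  push {X Y} f {j l} hl {a} h := by
    have h1 : (rlC C).κ Y • W'.push f (C.f X a) = (rlC C).κ X • C.f Y (T.W.push f a) :=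
      (rlC C).push f a
    have h2 : C.f Y (T.W.push f a) =
        (((rlC C).κ X)⁻¹ * (rlC C).κ Y) • W'.push f (C.f X a) := by
      rw [mul_smul, h1, smul_smul, inv_mul_cancel₀ ((rlC C).ne X), one_smul]
    rw [h2]
    exact (Pool.Agent.Q55.tatePred G).smul _ ((Pool.Agent.Q55.tatePred G).push f hl h)

include hC in
theorem r_law : (∀ n, RatTateAreHodge C G (pw X n)) ∨
    RatioToZero (fun n => dimP (IsHT C G) (pw X n)) fun n => dimP (IsRatTate C G) (pw X n) := by
  have hX : Nontrivial ((toH T).W.H X) := inferInstanceAs (Nontrivial (T.W.H X))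
  exact hodge_or (T := toH T) (htP hC G) (rtPred (T := toH T) (C := C) hC G)
    (fun {_ _ _} h => h.2) (fun {_ _ _} h => h.1)
    (fun n => ht_nondeg (T := toH T) (C := C) hC G (pw X n)) (ht_tr (T := toH T) (C := C) hC G X)

include hC in
theorem h_law : (∀ n, HodgeAreTate C G (pw X n)) ∨
    RatioToZero (fun n => dimP (IsHT C G) (pw X n)) fun n => dimP (IsHodge T) (pw X n) := by
  have hX : Nontrivial ((toH T).W.H X) := inferInstanceAs (Nontrivial (T.W.H X))
  exact hodge_tate_or (T := toH T) (C := C) hC G X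

include hC in
/-- The conclusions about cycles. -/
lemma cyc_ht (n : ℕ) : cycRk ops (pw X n) ≤ dimP (IsHT C G) (pw X n) := by
  have h0 : cycRk ops (pw X n) = cycRank ops (pw X n) := rfl
  rw [h0, ← numDim_eq_cycRank T.W]
  have h1 := (algSys T.W).a_add_num (pw X n)
  have h2 : finrank T.W.K ((algSys T.W).C (pw X n)) ≤
      finrank T.W.K ((htP hC G).sys.C (pw X n)) :=
    Submodule.finrank_mono (ClassPred.alg_le (Q := htP hC G))
  exact (by omega : (algSys T.W).a (pw X n) ≤ finrank T.W.K ((htP hC G).sys.C (pw X n)))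

include hC in
lemma cyc_law {t : ℕ → ℕ} (h : RatioToZero (fun n => dimP (IsHT C G) (pw X n)) t) :
    RatioToZero (fun n => cycRk ops (pw X n)) t :=
  ToZero.of_le (fun n => cyc_ht hC G X n) h

end Laws

section Desc

variable {X}

/-- Descent of the coefficients. -/
lemma mem_of_C_mem {T : AH.HodgeTheory ops} {C : Artin T.W W'} {M : Submodule T.W.K (T.W.H X)}
    {x : T.W.H X} (h : C.f X x ∈ Submodule.span W'.K (C.f X '' (M : Set (T.W.H X)))) : x ∈ M := by
  by_contra hx
  set m := Module.finBasis T.W.K M with hm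
  have h0 : Submodule.span T.W.K (Set.range fun i => ((m i : M) : T.W.H X)) = M := by
    have h1 := m.span_eq
    have h2 := congrArg (Submodule.map M.subtype) h1
    rw [Submodule.map_span, ← Set.range_comp, Submodule.map_top, Submodule.range_subtype] at h2
    exact h2
  have h1 : LinearIndependent T.W.K
      (fun o : Option (Fin (finrank T.W.K M)) => Option.casesOn' o x
        fun i => ((m i : M) : T.W.H X)) := by
    rw [linearIndependent_option']
    refine ⟨m.linearIndependent.map' M.subtype (Submodule.ker_subtype _), ?_⟩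
    rw [h0]
    exact hx
  have h2 := (C.ext X).1 _ _ h1
  have h3 : (fun o : Option (Fin (finrank T.W.K M)) => C.f X (Option.casesOn' o x
      fun i => ((m i : M) : T.W.H X))) =
      fun o => Option.casesOn' o (C.f X x) fun i => C.f X ((m i : M) : T.W.H X) := by
    funext o
    cases o <;> rfl
  rw [h3, linearIndependent_option'] at h2
  apply h2.2
  refine Submodule.span_le.2 ?_ h
  rintro _ ⟨y, hy, rfl⟩
  have h4 : y = ∑ i, m.repr ⟨y, hy⟩ i • ((m i : M) : T.W.H X) := by
    have h5 := congrArg (fun y : M => (y : T.W.H X)) (m.sum_repr ⟨y, hy⟩)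
    exact h5.symm.trans (Submodule.coe_sum _ _ _)
  rw [h4, map_sum]
  refine Submodule.sum_mem _ fun i _ => ?_
  rw [C_smul]
  exact Submodule.smul_mem _ _ (Submodule.subset_span ⟨i, rfl⟩)

/-- The space spanned by the classes of cycles. -/
lemma span_cyc {T : AH.HodgeTheory ops} {C : Artin T.W W'} (hC : RespCl C) (j : ℕ) :
    Submodule.span W'.K (C.f X '' (Submodule.span T.W.K
      {x | ∃ z, X.IsCyc j z ∧ T.W.cl X z = x} : Set (T.W.H X))) =
      Submodule.span W'.K {x | ∃ z, X.IsCyc j z ∧ W'.cl X z = x} := by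
  apply le_antisymm
  · rw [Submodule.span_le]
    rintro _ ⟨x, hx, rfl⟩
    have hx' : x ∈ Submodule.span T.W.K {x | ∃ z, X.IsCyc j z ∧ T.W.cl X z = x} := hx
    change C.f X x ∈ Submodule.span W'.K {x | ∃ z, X.IsCyc j z ∧ W'.cl X z = x}
    clear hx
    induction hx' using Submodule.span_induction with
    | mem x hx =>
      obtain ⟨z, hz, rfl⟩ := hx
      obtain ⟨r, -, hr⟩ := hC X j z hz
      rw [hr]
      exact Submodule.smul_mem _ _ (Submodule.subset_span ⟨z, hz, rfl⟩)
    | zero => rw [map_zero]; exact Submodule.zero_mem _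
    | add a b _ _ ha hb => rw [map_add]; exact Submodule.add_mem _ ha hb
    | smul r a _ ha => rw [C_smul]; exact Submodule.smul_mem _ _ ha
  · rw [Submodule.span_le]
    rintro _ ⟨z, hz, rfl⟩
    obtain ⟨r, hr, h⟩ := hC X j z hz
    have h1 : W'.cl X z = r⁻¹ • C.f X (T.W.cl X z) := by
      rw [h, smul_smul, inv_mul_cancel₀ hr, one_smul]
    rw [h1]
    exact Submodule.smul_mem _ _ (Submodule.subset_span
      ⟨_, Submodule.subset_span ⟨z, hz, rfl⟩, rfl⟩)

include hC in
lemma tc_of_hc {G : GaloisAction W' Γ} (h : TateAreHT C G X) (h' : HodgeConj T X) :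
    TateConj G X := by
  intro j c hc
  have h1 := h j c hc
  change c ∈ Submodule.span W'.K {x | ∃ z, X.IsCyc j z ∧ W'.cl X z = x}
  rw [← span_cyc (T := toH T) (C := C) hC]
  exact (Submodule.span_mono (Set.image_mono fun x hx => h' j x hx.1) : _ ≤ _) h1

include hC in
lemma hc_of_tc {G : GaloisAction W' Γ} (h : HodgeAreTate C G X) (h' : TateConj G X) :
    HodgeConj T X := by
  intro j x hx
  have h1 := h' j _ (h j x hx)
  change C.f X x ∈ Submodule.span W'.K {x | ∃ z, X.IsCyc j z ∧ W'.cl X z = x} at h1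
  rw [← span_cyc (T := toH T) (C := C) hC] at h1
  exact mem_of_C_mem (T := toH T) (C := C) h1

lemma mt_of {G : GaloisAction W' Γ} (h : TateAreHT C G X) (h' : HodgeAreTate C G X) :
    MumfordTate C G X := by
  intro j c
  refine ⟨fun hc => Submodule.span_mono (Set.image_mono fun x hx => hx.1) (h j c hc),
    fun hc => ?_⟩
  have hc' : c ∈ Submodule.span W'.K (C.f X '' {x | IsHodge T X j x}) := hc
  induction hc' using Submodule.span_induction with
  | mem x hx => obtain ⟨x, hx, rfl⟩ := hx; exact h' j x hx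
  | zero => exact (Pool.Agent.Q55.tatePred G).zero
  | add u v _ _ h1 h2 => exact (Pool.Agent.Q55.tatePred G).add (h1 ‹_›) (h2 ‹_›)
  | smul r u _ h1 => exact (Pool.Agent.Q55.tatePred G).smul r (h1 ‹_›)

lemma ht_of_mt {G : GaloisAction W' Γ} (h : MumfordTate C G X) : HodgeAreTate C G X :=
  fun j x hx => (h j _).2 (Submodule.subset_span ⟨x, hx, rfl⟩)

include hC in
/-- The dimensions under the Mumford-Tate conjecture. -/
lemma mt_dim {G : GaloisAction W' Γ} (h : MumfordTate C G X) :
    dimP (IsHT C G) X = dimP (IsHodge T) X ∧ dimP (IsTate G) X = dimP (IsHodge T) X := by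
  constructor
  · have h1 : {c : T.W.H X | ∃ j, IsHT C G X j c} = {c | ∃ j, IsHodge T X j c} := by
      ext c
      exact exists_congr fun j => ⟨fun hc => hc.1, fun hc => ⟨hc, ht_of_mt h j c hc⟩⟩
    exact congrArg (fun s : Set (T.W.H X) => dimOf T.W s) h1
  · have h1 := spanPred_dim (T := toH T) (C := C) (S := AH.hodgePred (toH T)) (hC := hC) X
    have h2 : {c : W'.H X | ∃ j, IsTate G X j c} =
        {c | ∃ j, (spanPred (T := toH T) C hC (AH.hodgePred (toH T))).P X j c} := by
      ext c
      exact exists_congr fun j => h j c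
    exact (congrArg (fun s : Set (W'.H X) => dimOf W' s) h2).trans h1

lemma hodge_pos (T : AH.HodgeTheory ops) (X : 𝒱.Obj) [Nontrivial (T.W.H X)] (n : ℕ) :
    0 < dimBy T.W (AH.IsHodge T) (pw X n) := by
  obtain ⟨l, hl, hl1⟩ := Pool.Agent.Q60.HD.exists_tr_sys (T := T) (X := X) (AH.hodgePred T).sys
    (fun Z z hz => ClassPred.sp_of (Q := AH.hodgePred T) ((AH.hodgePred T).cl hz))
  obtain ⟨m, hm, hm1⟩ := (AH.hodgePred T).sys.exists_lam hl hl1 n
  have h2 : (AH.hodgePred T).sys.C (pw X n) ≠ ⊥ := by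
    intro h
    rw [h, Submodule.mem_bot] at hm
    rw [hm, map_zero] at hm1
    exact zero_ne_one hm1
  exact Nat.pos_of_ne_zero fun h => h2 (Submodule.finrank_eq_zero.1 h)

lemma not_toZero {s : ℕ → ℕ} (h : ∀ n, 0 < s n) : ¬ RatioToZero s s := by
  intro h1
  have h2 : (fun n => (s n : ℝ) / s n) = fun _ => 1 := by
    funext n
    exact div_self (by exact_mod_cast (h n).ne')
  unfold RatioToZero at h1
  rw [h2] at h1
  exact one_ne_zero (tendsto_nhds_unique tendsto_const_nhds h1)

end Desc

section Main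

variable [Nontrivial (T.W.H X)]

include hC in
/-- **The Mumford-Tate conjecture for all powers as a statement about densities.** -/
theorem mt_iff (τ : W'.K →+* ℂ) : (∀ n, MumfordTate C G (pw X n)) ↔
    ¬ RatioToZero (fun n => dimP (IsHT C G) (pw X n)) (fun n => dimP (IsHodge T) (pw X n)) ∧
      ¬ RatioToZero (fun n => dimP (IsHT C G) (pw X n)) fun n => dimP (IsTate G) (pw X n) := by
  constructor
  · intro h
    have h1 : (fun n => dimP (IsHT C G) (pw X n)) = fun n => dimP (IsHodge T) (pw X n) :=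
      funext fun n => (mt_dim hC (h n)).1
    have h2 : (fun n => dimP (IsTate G) (pw X n)) = fun n => dimP (IsHodge T) (pw X n) :=
      funext fun n => (mt_dim hC (h n)).2
    rw [h1, h2]
    have h3 : ∀ n, 0 < dimP (IsHodge T) (pw X n) := by
      have hX : Nontrivial ((toH T).W.H X) := inferInstanceAs (Nontrivial (T.W.H X))
      exact fun n => hodge_pos (toH T) X n
    exact ⟨not_toZero h3, not_toZero h3⟩
  · rintro ⟨h1, h2⟩ n
    exact mt_of ((t_law hC G X τ).resolve_right h2 n) ((h_law hC G X).resolve_right h1 n)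

include hC in
theorem mt_iff_of (τ : W'.K →+* ℂ) (h : ∀ n, HodgeAreTate C G (pw X n)) :
    (∀ n, MumfordTate C G (pw X n)) ↔
      ¬ RatioToZero (fun n => dimP (IsHodge T) (pw X n)) fun n => dimP (IsTate G) (pw X n) := by
  have h1 : (fun n => dimP (IsHT C G) (pw X n)) = fun n => dimP (IsHodge T) (pw X n) := by
    funext n
    have h1 : {c : T.W.H (pw X n) | ∃ j, IsHT C G (pw X n) j c} =
        {c | ∃ j, IsHodge T (pw X n) j c} := by
      ext c
      exact exists_congr fun j => ⟨fun hc => hc.1, fun hc => ⟨hc, h n j c hc⟩⟩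
    exact congrArg (fun s : Set (T.W.H (pw X n)) => dimOf T.W s) h1
  rw [mt_iff hC G X τ, h1]
  have h3 : ∀ n, 0 < dimP (IsHodge T) (pw X n) := by
    have hX : Nontrivial ((toH T).W.H X) := inferInstanceAs (Nontrivial (T.W.H X))
    exact fun n => hodge_pos (toH T) X n
  exact ⟨fun h => h.2, fun h => ⟨not_toZero h3, h⟩⟩

include hC in
theorem cyc_tate (τ : W'.K →+* ℂ) :
    (∀ n, TateAreHT C G (pw X n) ∧ (HodgeConj T (pw X n) → TateConj G (pw X n))) ∨
      RatioToZero (fun n => cycRk ops (pw X n)) fun n => dimP (IsTate G) (pw X n) := by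
  rcases t_law hC G X τ with h | h
  · exact Or.inl fun n => ⟨h n, tc_of_hc hC (h n)⟩
  · exact Or.inr (cyc_law hC G X h)

include hC in
theorem cyc_both (τ : W'.K →+* ℂ) :
    (∀ n, MumfordTate C G (pw X n) ∧ (HodgeConj T (pw X n) ↔ TateConj G (pw X n))) ∨
      RatioToZero (fun n => cycRk ops (pw X n)) (fun n => dimP (IsTate G) (pw X n)) ∨
      RatioToZero (fun n => cycRk ops (pw X n)) fun n => dimP (IsHodge T) (pw X n) := by
  rcases t_law hC G X τ with h | h
  · rcases h_law hC G X with h' | h'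
    · exact Or.inl fun n => ⟨mt_of (h n) (h' n), tc_of_hc hC (h n), hc_of_tc hC (h' n)⟩
    · exact Or.inr (Or.inr (cyc_law hC G X h'))
  · exact Or.inr (Or.inl (cyc_law hC G X h))

end Main

end Pool.Agent.Q28.ZO
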