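import Pool.Agent.Q57.DR.Fin2
import Pool.Agent.Y121.AH.ZeroOne

/-!
# Classes generated over Hodge classes are Hodge classes
-/

open CategoryTheory AlgebraicGeometry TensorProduct Filter Topology

universe u

namespace Pool.Agent.Q28.ZO

open Module
open Pool.Agent.H914 Pool.Agent.H914.VarClass Pool.Agent.H914.VarClass.Obj
  Pool.Agent.H914.WeilCohomology
open Pool.Agent.Y133.Half
open Pool.Agent.Y121 Pool.Agent.Y121.AH

variable {k : Type u} [Field k] {𝒱 : VarClass k} {ops : CycleOps 𝒱} {T : AH.HodgeTheory ops}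
  {X P Z : 𝒱.Obj}

/-- The rational cohomology in the complex cohomology. -/
noncomputable def emR (T : AH.HodgeTheory ops) : Rlz T.W (CW T) where
  s := (algebraMap T.W.K ℂ : T.W.K →+* ℂ)
  c := 1
  ne := one_ne_zero
  E X :=
    { toFun := em T.W ℂ
      map_one' := rfl
      map_mul' := fun a b => em_mul a b
      map_zero' := em_zero
      map_add' := fun a b => em_add a b }
  semi X r a := em_smul r a
  gr ha := em_gr ha
  nat f b := (em_map f b).symm
  push f a := by
    rw [one_pow, one_pow, one_smul, one_smul]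
    exact (em_push f a).symm

lemma emR_apply (x : T.W.H X) : (emR T).E X x = em T.W ℂ x := rfl

/-- If the classes of `R` on all powers of `X` are generated by those on one power under
correspondences given by the system `S`, which consists of classes fixed by the operator, then they
are fixed by the operator. -/
theorem fix_of_genBy {S R : Sys T.W} (hS : ∀ X, ∀ x ∈ S.C X, gop T X (em T.W ℂ x) = em T.W ℂ x)
    (h : GenBy S R X P) {n j : ℕ} {c : T.W.H (pw X n)} (hc0 : c ∈ R.C (pw X n))
    (hc : c ∈ T.W.gr (pw X n) (2 * j)) : gop T (pw X n) (em T.W ℂ c) = em T.W ℂ c := by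
  refine fix_of_rel (emR T) (μ := (gop T P).charpoly)
    (LinearMap.charpoly_monic _).ne_zero hc fun m => ?_
  obtain ⟨r, hr⟩ := pw_pw X n m
  exact gen_rel (emR T) (fun X x hx => hS X x hx) (LinearMap.aeval_self_charpoly _)
    (h r _ hr (xpw_mem _ hc0 m))

/-- The Hodge classes are fixed by the operator. -/
lemma hodge_fix {x : T.W.H X} (hx : x ∈ (hodgeSys T).C X) :
    gop T X (em T.W ℂ x) = em T.W ℂ x := by
  have hx' : x ∈ (hodgePred T).sp X := hx
  refine ClassPred.sp_ind (Q := hodgePred T)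
    (q := fun x => gop T X (em T.W ℂ x) = em T.W ℂ x) ?_ ?_ ?_ hx'
  · rintro j x hx
    exact gop_hodge hx
  · rw [em_zero, map_zero]
  · intro x y hx hy
    rw [em_add, map_add, hx, hy]

/-- The ratio tends to zero. -/
lemma tendsto_zero_of_le {s t : ℕ → ℕ}
    (h : ∀ N : ℕ, ∃ n₀ : ℕ, ∀ n ≥ n₀, N * s n ≤ t n) :
    Tendsto (fun n => (s n : ℝ) / t n) atTop (𝓝 0) := by
  rw [Metric.tendsto_atTop]
  intro ε hε
  obtain ⟨N, hN⟩ := exists_nat_gt (1 / ε)
  obtain ⟨n₀, hn₀⟩ := h N
  refine ⟨n₀, fun n hn => ?_⟩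
  have h1 := hn₀ n hn
  have h2 : (0 : ℝ) ≤ (s n : ℝ) / t n := by positivity
  rw [Real.dist_eq, sub_zero, abs_of_nonneg h2]
  rcases Nat.eq_zero_or_pos (t n) with h3 | h3
  · rw [h3, Nat.cast_zero, div_zero]; exact hε
  · have h4 : (0 : ℝ) < t n := by exact_mod_cast h3
    rw [div_lt_iff₀ h4]
    have h5 : (N : ℝ) * s n ≤ t n := by exact_mod_cast h1
    have h6 : 1 < ε * N := by
      rw [div_lt_iff₀ hε] at hN
      linarith
    have h7 : (0 : ℝ) ≤ s n := Nat.cast_nonneg _
    rcases h7.eq_or_lt with h8 | h8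
    · rw [← h8]; positivity
    · nlinarith [mul_lt_mul_of_pos_right h6 h8, mul_le_mul_of_nonneg_left h5 hε.le]

/-- **The zero-one law for classes over Hodge classes.** Let `Q` be a property of classes stable
under the usual operations, let `S` be a nondegenerate property of Hodge classes which implies `Q`.
Either all classes with the property `Q` on all powers of `X` are Hodge classes, or the dimensions
for `S` divided by the dimensions for `Q` tend to zero. -/
theorem hodge_or (S Q : ClassPred T.W) (hSQ : ∀ {X j c}, S.P X j c → Q.P X j c)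
    (hSH : ∀ {X j c}, S.P X j c → AH.IsHodge T X j c)
    (hnd : ∀ n, S.sys.Nondeg (pw X n)) [Nontrivial (T.W.H X)]
    (hl : ∃ l ∈ S.sys.C X, T.W.tr X l = 1) :
    (∀ n j c, Q.P (pw X n) j c → AH.IsHodge T (pw X n) j c) ∨
      Tendsto (fun n => (dimBy T.W S.P (pw X n) : ℝ) / dimBy T.W Q.P (pw X n)) atTop (𝓝 0) := by
  obtain ⟨l, hl, hl1⟩ := hl
  have hle : ∀ X, S.sys.C X ≤ Q.sys.C X := fun Z => ClassPred.sys_le (Q := S) (R := Q) hSQ Z
  rcases growth_or S.sys Q.sys hle X hl hl1 with ⟨m, P, -, hP⟩ | h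
  · left
    intro n j c hc
    refine isHodge_of_fix (Q.gr hc) (fix_of_genBy (fun Z x hx => hodge_fix ?_) hP
      (ClassPred.sp_of (Q := Q) hc) (Q.gr hc))
    exact ClassPred.sys_le (Q := S) (R := hodgePred T) hSH Z hx
  · right
    refine tendsto_zero_of_le fun N => ?_
    obtain ⟨n₀, hn₀⟩ := h N
    refine ⟨n₀, fun n hn => ?_⟩
    have h1 := hn₀ n hn
    have h0 : S.sys.Num (pw X n) = ⊥ := by
      rw [eq_bot_iff]
      intro x hx
      exact hnd n x hx.1 hx.2
    have h2 := S.sys.a_add_num (pw X n)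
    rw [h0, finrank_bot, add_zero] at h2
    rw [h2] at h1
    exact h1

end Pool.Agent.Q28.ZO
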