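import Pool.Agent.Q28.ZO.Val

/-!
# Values of generated classes in rings of an arbitrary universe
-/

open CategoryTheory AlgebraicGeometry

universe u w

namespace Pool.Agent.Q28.ZO

open Module
open Pool.Agent.H914 Pool.Agent.H914.VarClass Pool.Agent.H914.VarClass.Obj
  Pool.Agent.H914.WeilCohomology
open Pool.Agent.Y133.Half
open Pool.Agent.Y121 Pool.Agent.Y121.AH

variable {k : Type u} [Field k] {𝒱 : VarClass k} {ops : CycleOps 𝒱}

/-- Functionals on the cohomology of all varieties which are compatible with the correspondences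
given by the classes with the property `S`, and with external powers. -/
structure ValsU (W : WeilCohomology.{u, 0} ops) (S : ClassPred W) (F : Type) (L : Type w)
    [Field F] [CommRing L] [Algebra F L] where
  /-- the functionals on the classes of degree `2 j` on `Z` -/
  Lam : ∀ Z : 𝒱.Obj, ℕ → Set (W.H Z → L)
  add : ∀ {Z : 𝒱.Obj} {j : ℕ} {f : W.H Z → L}, f ∈ Lam Z j → ∀ x y, f (x + y) = f x + f y
  corr : ∀ {P Z : 𝒱.Obj} {i j l : ℕ} {c : W.H (P.prod Z)} {f : W.H Z → L}, S.P (P.prod Z) i c →
    f ∈ Lam Z j → i + l = j + P.dim → ∃ g ∈ Lam P l, ∀ t ∈ W.gr P (2 * l), f (W.corr c t) = g t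
  pow : ∀ {Z : 𝒱.Obj} {j : ℕ} {f : W.H Z → L}, f ∈ Lam Z j → ∀ m : ℕ,
    ∃ g ∈ Lam (pw Z m) (j * (m + 1)), ∀ v ∈ W.gr Z (2 * j), g (xpw W v m) = f v ^ (m + 1)
  fin : ∀ P : 𝒱.Obj, ∃ M : Submodule F L, Module.Finite F M ∧
    ∀ l, ∀ f ∈ Lam P l, ∀ t ∈ W.gr P (2 * l), f t ∈ M

variable {W : WeilCohomology.{u, 0} ops} {S Q : ClassPred W} {F : Type} {L : Type w} [Field F]
  [CommRing L] [Algebra F L] {X P Z : 𝒱.Obj}

/-- The values on the generated classes. -/
lemma ValsU.gen_mem (V : ValsU W S F L) {M : Submodule F L}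
    (hM : ∀ l, ∀ f ∈ V.Lam P l, ∀ t ∈ W.gr P (2 * l), f t ∈ M) {j : ℕ} {f : W.H Z → L}
    (hf : f ∈ V.Lam Z j) {x : W.H Z} (hx : x ∈ gen S.sys P Z (Q.sys.C P)) :
    f (H914.proj (W.isInternal Z) (2 * j) x) ∈ M := by
  have h0 : f 0 = 0 := by
    have h := V.add hf 0 0
    rw [add_zero] at h
    exact left_eq_add.1 h
  have key : ∀ r : W.K, f (H914.proj (W.isInternal Z) (2 * j) (r • x)) ∈ M := by
    induction hx using Submodule.span_induction with
    | mem x hx =>
      intro r
      obtain ⟨u, hu, t, ht, rfl⟩ := hx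
      obtain ⟨c, hc, rfl⟩ := Sys.mem_Op.1 hu
      rw [← map_smul]
      have ht' : r • t ∈ Q.sp P := Submodule.smul_mem _ r ht
      have hc' : c ∈ S.sp (P.prod Z) := hc
      generalize r • t = t at ht'
      refine ClassPred.sp_ind (Q := S) (q := fun c => f
        (H914.proj (W.isInternal Z) (2 * j) (W.corr c t)) ∈ M) ?_ ?_ ?_ hc'
      · intro i c hc
        refine ClassPred.sp_ind (Q := Q) (q := fun t => f
          (H914.proj (W.isInternal Z) (2 * j) (W.corr c t)) ∈ M) ?_ ?_ ?_ ht'
        · intro l t ht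
          have h1 : c * W.map (fst P Z) t ∈ W.gr (P.prod Z) (2 * (i + l)) := by
            rw [mul_add]; exact W.mul_mem (S.gr hc) (W.map_mem _ (Q.gr ht))
          by_cases hil : i + l = j + P.dim
          · have h2 : W.corr c t ∈ W.gr Z (2 * j) := by
              rw [corr_apply]
              exact push_gr _ (by rw [dim_prod]; omega) h1
            rw [proj_same _ h2]
            obtain ⟨g, hg, h3⟩ := V.corr hc hf hil
            rw [h3 t (Q.gr ht)]
            exact hM l g hg t (Q.gr ht)
          · have h2 : H914.proj (W.isInternal Z) (2 * j) (W.corr c t) = 0 := by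
              rw [corr_apply]
              by_cases hlt : i + l < P.dim
              · rw [push_neg _ (by rw [dim_prod]; omega) h1, map_zero]
              · exact proj_ne _ (push_gr (l := i + l - P.dim) _ (by rw [dim_prod]; omega) h1)
                  (by omega)
            rw [h2, h0]
            exact Submodule.zero_mem _
        · rw [map_zero, map_zero, h0]; exact Submodule.zero_mem _
        · intro x y hx hy
          rw [map_add, map_add, V.add hf]; exact Submodule.add_mem _ hx hy
      · rw [corr_zero, LinearMap.zero_apply, map_zero, h0]; exact Submodule.zero_mem _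
      · intro x y hx hy
        rw [corr_add, LinearMap.add_apply, map_add, V.add hf]; exact Submodule.add_mem _ hx hy
    | zero => intro r; rw [smul_zero, map_zero, h0]; exact Submodule.zero_mem _
    | add x y _ _ hx hy =>
      intro r; rw [smul_add, map_add, V.add hf]; exact Submodule.add_mem _ (hx r) (hy r)
    | smul s x _ hx => intro r; rw [smul_smul]; exact hx _
  have := key 1
  rwa [one_smul] at this

/-- **The values on finitely generated classes are algebraic.** -/
theorem ValsU.alg (V : ValsU W S F L) (h : GenBy S.sys Q.sys X P) {n j : ℕ} {v : W.H (pw X n)}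
    (hv : Q.P (pw X n) j v) {f : W.H (pw X n) → L} (hf : f ∈ V.Lam (pw X n) j) :
    IsAlgebraic F (f v) := by
  obtain ⟨M, hMf, hM⟩ := V.fin P
  refine isAlgebraic_of_pow (M := M) fun m => ?_
  obtain ⟨g, hg, h1⟩ := V.pow hf m
  rw [← h1 v (Q.gr hv)]
  obtain ⟨r, hr⟩ := pw_pw X n m
  have h2 : xpw W v m ∈ Q.sys.C (pw (pw X n) m) := by
    have h3 : ∀ m, xpw W v m ∈ Q.sys.C (pw (pw X n) m) := by
      intro m
      induction m with
      | zero => exact ClassPred.sp_of (Q := Q) hv
      | succ m ih => exact Sys.xp_mem_C Q.sys ih (ClassPred.sp_of (Q := Q) hv)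
    exact h3 m
  have h3 := V.gen_mem (Q := Q) hM hg (h r _ hr h2)
  rwa [proj_same _ (xpw_gr (Q.gr hv) m)] at h3

end Pool.Agent.Q28.ZO
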